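import Mathlib

set_option autoImplicit false

namespace Pool.Agent.Lib.MP_bcb457_an

open Real Finset Polynomial

/-- A polynomial bounded by one on the unit circle has coefficients bounded by one. -/
lemma coeff_le_one (P : ℂ[X]) (hP : ∀ z : ℂ, ‖z‖ = 1 → ‖P.eval z‖ ≤ 1) (k : ℕ) :
    ‖P.coeff k‖ ≤ 1 := by
  have h := P.sum_sq_norm_coeff_eq_circleAverage
  have h1 : Real.circleAverage (fun θ ↦ ‖P.eval θ‖ ^ 2) 0 1 ≤ 1 := by
    apply Real.circleAverage_mono_on_of_le_circle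
    · apply ContinuousOn.circleIntegrable'
      fun_prop
    · intro x hx
      simp only [abs_one, mem_sphere_iff_norm, sub_zero] at hx
      have := hP x hx
      have h0 := norm_nonneg (P.eval x)
      nlinarith
  by_cases hk : k ∈ P.support
  · have h2 : ‖P.coeff k‖ ^ 2 ≤ ∑ i ∈ P.support, ‖P.coeff i‖ ^ 2 :=
      Finset.single_le_sum (f := fun i => ‖P.coeff i‖ ^ 2) (fun i _ => sq_nonneg _) hk
    have h3 : ‖P.coeff k‖ ^ 2 ≤ 1 := by linarith
    exact (sq_le_one_iff₀ (norm_nonneg _)).mp h3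
  · rw [Polynomial.notMem_support_iff.mp hk]
    simp

/-- The auxiliary complex polynomial `z^D q(Im z)` on the unit circle. -/
noncomputable def auxP (c : ℕ → ℝ) (D : ℕ) : ℂ[X] :=
  ∑ k ∈ Finset.range (D + 1), C (c k : ℂ) * (C (-Complex.I / 2) * (X ^ 2 - 1)) ^ k * X ^ (D - k)

lemma auxP_eval (c : ℕ → ℝ) (D : ℕ) (z : ℂ) (hz : ‖z‖ = 1) :
    (auxP c D).eval z = z ^ D * ((∑ k ∈ Finset.range (D + 1), c k * z.im ^ k : ℝ) : ℂ) := by
  unfold auxP
  rw [Polynomial.eval_finsetSum]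
  push_cast
  rw [Finset.mul_sum]
  apply Finset.sum_congr rfl
  intro k hk
  rw [Finset.mem_range] at hk
  simp only [eval_mul, eval_C, eval_pow, eval_sub, eval_X, eval_one]
  have h1 : -Complex.I / 2 * (z ^ 2 - 1) = z * z.im := by
    have h2 : (1:ℂ) = z * (starRingEnd ℂ) z := by
      rw [Complex.mul_conj, Complex.normSq_eq_norm_sq, hz]
      norm_num
    have h3 : (z.im : ℂ) = (z - (starRingEnd ℂ) z) / (2 * Complex.I) := by
      rw [Complex.im_eq_sub_conj]
    have h4 : z ^ 2 - 1 = z * (z - (starRingEnd ℂ) z) := by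
      conv_lhs => rw [h2]
      ring
    rw [h4, h3]
    have := Complex.I_ne_zero
    field_simp
    rw [Complex.I_sq]
    ring
  rw [h1, mul_pow]
  have h5 : z ^ D = z ^ k * z ^ (D - k) := by
    rw [← pow_add]; congr 1; omega
  rw [h5]
  ring

lemma auxP_natDegree (c : ℕ → ℝ) (D : ℕ) : (auxP c D).natDegree ≤ 2 * D := by
  unfold auxP
  apply Polynomial.natDegree_sum_le_of_forall_le
  intro k hk
  rw [Finset.mem_range] at hk
  have h1 : (X ^ 2 - 1 : ℂ[X]).natDegree ≤ 2 := by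
    refine (Polynomial.natDegree_sub_le _ _).trans ?_
    simp
  have h2 : (C (-Complex.I / 2) * (X ^ 2 - 1) : ℂ[X]).natDegree ≤ 2 :=
    (Polynomial.natDegree_C_mul_le _ _).trans h1
  have h3 : ((C (-Complex.I / 2) * (X ^ 2 - 1)) ^ k : ℂ[X]).natDegree ≤ k * 2 :=
    Polynomial.natDegree_pow_le_of_le k h2
  have h4 : (C (c k : ℂ) * (C (-Complex.I / 2) * (X ^ 2 - 1)) ^ k : ℂ[X]).natDegree ≤ k * 2 :=
    (Polynomial.natDegree_C_mul_le _ _).trans h3
  refine (Polynomial.natDegree_mul_le).trans ?_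
  rw [Polynomial.natDegree_X_pow]
  omega

lemma auxP_deriv (c : ℕ → ℝ) (m : ℕ) :
    (derivative (auxP c (m + 1))).eval 1 = (m + 1) * c 0 - Complex.I * c 1 := by
  unfold auxP
  rw [Polynomial.derivative_sum, Polynomial.eval_finsetSum, Finset.sum_range_succ',
    Finset.sum_range_succ']
  have h : ∀ k ∈ Finset.range m, (derivative (C (c (k + 1 + 1) : ℂ) *
      (C (-Complex.I / 2) * (X ^ 2 - 1)) ^ (k + 1 + 1) * X ^ (m + 1 - (k + 1 + 1)))).eval 1 = 0 := by
    intro k _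
    simp [Polynomial.derivative_mul, Polynomial.derivative_pow]
  rw [Finset.sum_congr rfl h]
  simp [Polynomial.derivative_mul, Polynomial.derivative_pow]
  ring

/-- Bernstein/Markov type bound for the linear coefficient. -/
theorem coeff_one_le (c : ℕ → ℝ) (D : ℕ) (hD : 1 ≤ D)
    (h : ∀ t : ℝ, |t| ≤ 1 → |∑ k ∈ Finset.range (D + 1), c k * t ^ k| ≤ 1) :
    |c 1| ≤ 2 * (D:ℝ) * (D + 1) := by
  obtain ⟨m, rfl⟩ : ∃ m, D = m + 1 := ⟨D - 1, by omega⟩
  have hP : ∀ z : ℂ, ‖z‖ = 1 → ‖(auxP c (m + 1)).eval z‖ ≤ 1 := by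
    intro z hz
    rw [auxP_eval c _ z hz, norm_mul, norm_pow, hz, one_pow, one_mul, Complex.norm_real]
    exact h z.im ((Complex.abs_im_le_norm z).trans hz.le)
  have hc := coeff_le_one _ hP
  have h0 : |c 0| ≤ 1 := by
    have := h 0 (by simp)
    rw [Finset.sum_range_succ'] at this
    simpa using this
  have hd : ‖(derivative (auxP c (m + 1))).eval 1‖ ≤ ((m:ℝ) + 1) * (2 * (m + 1) + 1) := by
    have hdeg : (derivative (auxP c (m + 1))).natDegree < 2 * (m + 1) := by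
      have h1 := auxP_natDegree c (m + 1)
      have h2 := Polynomial.natDegree_derivative_le (auxP c (m + 1))
      omega
    rw [Polynomial.eval_eq_sum_range' hdeg]
    refine (norm_sum_le _ _).trans ?_
    have h3 : ∀ i ∈ Finset.range (2 * (m + 1)),
        ‖(derivative (auxP c (m + 1))).coeff i * 1 ^ i‖ ≤ (i:ℝ) + 1 := by
      intro i _
      rw [Polynomial.coeff_derivative, one_pow, mul_one, norm_mul]
      have h4 : ‖(i:ℂ) + 1‖ = (i:ℝ) + 1 := by
        have : (i:ℂ) + 1 = ((i + 1 : ℕ) : ℂ) := by push_cast; ring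
        rw [this, Complex.norm_natCast]
        push_cast; ring
      rw [h4]
      have := hc (i + 1)
      have h5 : (0:ℝ) ≤ (i:ℝ) + 1 := by positivity
      nlinarith
    refine (Finset.sum_le_sum h3).trans ?_
    have h6 : ∀ n : ℕ, ∑ i ∈ Finset.range n, ((i:ℝ) + 1) = n * (n + 1) / 2 := by
      intro n
      induction n with
      | zero => simp
      | succ n ih =>
        rw [Finset.sum_range_succ, ih]
        push_cast; ring
    rw [h6]
    push_cast
    nlinarith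
  rw [auxP_deriv] at hd
  have h7 : |c 1| = ‖Complex.I * (c 1 : ℂ)‖ := by
    rw [norm_mul, Complex.norm_I, one_mul, Complex.norm_real, Real.norm_eq_abs]
  have h8 : Complex.I * (c 1 : ℂ) = ((m:ℂ) + 1) * c 0 - (((m:ℂ) + 1) * c 0 - Complex.I * c 1) := by ring
  have h9 : ‖((m:ℂ) + 1) * (c 0 : ℂ)‖ ≤ (m:ℝ) + 1 := by
    rw [norm_mul, Complex.norm_real, Real.norm_eq_abs]
    have h4 : ‖(m:ℂ) + 1‖ = (m:ℝ) + 1 := by
      have : (m:ℂ) + 1 = ((m + 1 : ℕ) : ℂ) := by push_cast; ring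
      rw [this, Complex.norm_natCast]
      push_cast; ring
    rw [h4]
    have h5 : (0:ℝ) ≤ (m:ℝ) + 1 := by positivity
    nlinarith
  rw [h7, h8]
  refine (norm_sub_le _ _).trans ?_
  push_cast
  nlinarith

end Pool.Agent.Lib.MP_bcb457_an
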