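import Mathlib

set_option autoImplicit false

namespace Pool.Agent.Lib.MP_bcb457_an

open Real Finset

/-- Minkowski's inequality for finitely many nonnegative vectors. -/
theorem minkowski {α β : Type*} (s : Finset α) (t : Finset β) (b : α → β → ℝ)
    (hb : ∀ i j, 0 ≤ b i j) {r : ℝ} (hr : 1 ≤ r) :
    (∑ i ∈ s, (∑ j ∈ t, b i j) ^ r) ^ (1 / r) ≤ ∑ j ∈ t, (∑ i ∈ s, (b i j) ^ r) ^ (1 / r) := by
  classical
  induction t using Finset.induction_on with
  | empty =>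
    simp
    rw [Real.zero_rpow (by linarith : r ≠ 0)]
    simp
    rw [Real.zero_rpow (by simp; linarith : r⁻¹ ≠ 0)]
  | insert j t hj ih =>
    rw [Finset.sum_insert hj]
    have h := Real.Lp_add_le_of_nonneg (s := s) (f := fun i => b i j) (g := fun i => ∑ j ∈ t, b i j)
      hr (fun i _ => hb i j) (fun i _ => Finset.sum_nonneg fun j _ => hb i j)
    have e : ∀ i, ∑ j ∈ insert j t, b i j = b i j + ∑ j ∈ t, b i j := fun i => Finset.sum_insert hj
    simp only [e]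
    linarith

/-- Hölder in multiplicative form. -/
theorem holder {α : Type*} (s : Finset α) (f g : α → ℝ) (hf : ∀ i ∈ s, 0 ≤ f i)
    (hg : ∀ i ∈ s, 0 ≤ g i) {l m : ℝ} (hl : 0 < l) (hm : 0 < m) (hlm : l + m = 1) :
    ∑ i ∈ s, (f i) ^ l * (g i) ^ m ≤ (∑ i ∈ s, f i) ^ l * (∑ i ∈ s, g i) ^ m := by
  have hpq : (1 / l).HolderConjugate (1 / m) := by
    rw [Real.holderConjugate_iff]
    constructor
    · rw [lt_div_iff₀ hl]; linarith
    · simp [hlm]
  have h := Real.inner_le_Lp_mul_Lq_of_nonneg (s := s) (f := fun i => (f i) ^ l)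
    (g := fun i => (g i) ^ m) hpq (fun i hi => rpow_nonneg (hf i hi) _)
    (fun i hi => rpow_nonneg (hg i hi) _)
  have e1 : ∀ i ∈ s, ((f i) ^ l) ^ (1 / l) = f i := by
    intro i hi
    rw [← rpow_mul (hf i hi), mul_one_div_cancel hl.ne', rpow_one]
  have e2 : ∀ i ∈ s, ((g i) ^ m) ^ (1 / m) = g i := by
    intro i hi
    rw [← rpow_mul (hg i hi), mul_one_div_cancel hm.ne', rpow_one]
  rw [Finset.sum_congr rfl e1, Finset.sum_congr rfl e2] at h
  simpa using h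

/-- Bilinear (Blei type) interpolation: mixed norm bounds in both directions with exponent `q`
give an `ℓ^p` bound, `1/p = (1/q + 1/2)/2`. -/
theorem interp {α β : Type*} (s : Finset α) (t : Finset β) (a : α → β → ℝ)
    (ha : ∀ i j, 0 ≤ a i j) {p q L : ℝ} (hq1 : 1 ≤ q) (hq2 : q ≤ 2) (hp : p = 4 * q / (2 + q))
    (hL : 0 ≤ L)
    (H1 : ∑ i ∈ s, (∑ j ∈ t, (a i j) ^ (2:ℝ)) ^ (q / 2) ≤ L ^ q)
    (H2 : ∑ j ∈ t, (∑ i ∈ s, (a i j) ^ (2:ℝ)) ^ (q / 2) ≤ L ^ q) :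
    ∑ i ∈ s, ∑ j ∈ t, (a i j) ^ p ≤ L ^ p := by
  have hp0 : 0 < p := by rw [hp]; positivity
  have hq0 : 0 < q := by linarith
  have hexp : p / 4 + p / (2 * q) = 1 := by
    rw [hp]; field_simp; ring
  set X : α → ℝ := fun i => ∑ j ∈ t, (a i j) ^ (2:ℝ) with hX
  set Y : α → ℝ := fun i => ∑ j ∈ t, (a i j) ^ q with hY
  have hX0 : ∀ i, 0 ≤ X i := fun i => Finset.sum_nonneg fun j _ => rpow_nonneg (ha i j) _
  have hY0 : ∀ i, 0 ≤ Y i := fun i => Finset.sum_nonneg fun j _ => rpow_nonneg (ha i j) _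
  -- Hölder in j
  have h1 : ∀ i ∈ s, ∑ j ∈ t, (a i j) ^ p ≤ (X i) ^ (p / 4) * (Y i) ^ (p / (2 * q)) := by
    intro i _
    have h := holder t (fun j => (a i j) ^ (2:ℝ)) (fun j => (a i j) ^ q)
      (fun j _ => rpow_nonneg (ha i j) _) (fun j _ => rpow_nonneg (ha i j) _)
      (by positivity : 0 < p / 4) (by positivity : 0 < p / (2 * q)) hexp
    refine le_trans (le_of_eq ?_) h
    apply Finset.sum_congr rfl
    intro j _
    rw [← rpow_mul (ha i j), ← rpow_mul (ha i j), ← rpow_add_of_nonneg (ha i j) (by positivity) (by positivity)]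
    congr 1
    field_simp
    ring
  refine le_trans (Finset.sum_le_sum h1) ?_
  -- Hölder in i
  have h2 := holder s (fun i => (X i) ^ (q / 2)) (fun i => (Y i) ^ (2 / q))
    (fun i _ => rpow_nonneg (hX0 i) _) (fun i _ => rpow_nonneg (hY0 i) _)
    (by positivity : 0 < p / (2 * q)) (by positivity : 0 < p / 4) (by linarith)
  have e : ∀ i ∈ s, (X i) ^ (p / 4) * (Y i) ^ (p / (2 * q)) =
      ((X i) ^ (q / 2)) ^ (p / (2 * q)) * ((Y i) ^ (2 / q)) ^ (p / 4) := by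
    intro i _
    rw [← rpow_mul (hX0 i), ← rpow_mul (hY0 i)]
    congr 2
    · field_simp
      ring
    · field_simp
      ring
  rw [Finset.sum_congr rfl e]
  refine le_trans h2 ?_
  -- Minkowski
  have hr : 1 ≤ 2 / q := by rw [le_div_iff₀ hq0]; linarith
  have h3 := minkowski s t (fun i j => (a i j) ^ q) (fun i j => rpow_nonneg (ha i j) _) hr
  have e2 : ∀ j ∈ t, (∑ i ∈ s, ((a i j) ^ q) ^ (2 / q)) ^ (1 / (2 / q)) =
      (∑ i ∈ s, (a i j) ^ (2:ℝ)) ^ (q / 2) := by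
    intro j _
    have : ∀ i ∈ s, ((a i j) ^ q) ^ (2 / q) = (a i j) ^ (2:ℝ) := by
      intro i _
      rw [← rpow_mul (ha i j)]
      congr 1
      field_simp
    rw [Finset.sum_congr rfl this]
    congr 1
    field_simp
  rw [Finset.sum_congr rfl e2] at h3
  have h4 : (∑ i ∈ s, (Y i) ^ (2 / q)) ^ (1 / (2 / q)) ≤ L ^ q := h3.trans H2
  have hS0 : 0 ≤ ∑ i ∈ s, (Y i) ^ (2 / q) := Finset.sum_nonneg fun i _ => rpow_nonneg (hY0 i) _
  have hS1 : 0 ≤ ∑ i ∈ s, (X i) ^ (q / 2) := Finset.sum_nonneg fun i _ => rpow_nonneg (hX0 i) _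
  have h5 : ∑ i ∈ s, (Y i) ^ (2 / q) ≤ L ^ (2:ℝ) := by
    have h6 := rpow_le_rpow (rpow_nonneg hS0 _) h4 (by positivity : 0 ≤ 2 / q)
    rw [← rpow_mul hS0, ← rpow_mul hL] at h6
    have e3 : 1 / (2 / q) * (2 / q) = 1 := by field_simp
    have e4 : q * (2 / q) = 2 := by field_simp
    rwa [e3, e4, rpow_one] at h6
  calc (∑ i ∈ s, (X i) ^ (q / 2)) ^ (p / (2 * q)) * (∑ i ∈ s, (Y i) ^ (2 / q)) ^ (p / 4)
      ≤ (L ^ q) ^ (p / (2 * q)) * (L ^ (2:ℝ)) ^ (p / 4) := by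
        apply mul_le_mul
        · exact rpow_le_rpow hS1 H1 (by positivity)
        · exact rpow_le_rpow hS0 h5 (by positivity)
        · exact rpow_nonneg hS0 _
        · exact rpow_nonneg (rpow_nonneg hL _) _
    _ = L ^ p := by
        rw [← rpow_mul hL, ← rpow_mul hL, ← rpow_add_of_nonneg hL (by positivity) (by positivity)]
        congr 1
        field_simp
        ring

end Pool.Agent.Lib.MP_bcb457_an
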