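import Mathlib

set_option autoImplicit false

namespace Pool.Agent.Lib.MP_bcb457_an

open Real

/-- `2st ≤ (1+t)^s - (1-t)^s` for `0 ≤ s ≤ 1`, `0 ≤ t < 1`. -/
lemma lemA {s : ℝ} (hs0 : 0 ≤ s) (hs1 : s ≤ 1) {t : ℝ} (ht0 : 0 ≤ t) (ht1 : t < 1) :
    2 * s * t ≤ (1 + t) ^ s - (1 - t) ^ s := by
  set g : ℝ → ℝ := fun t => (1 + t) ^ s - (1 - t) ^ s - 2 * s * t with hg
  have hder : ∀ x ∈ Set.Ico (0:ℝ) 1, HasDerivAt g (s * ((1 + x) ^ (s - 1) + (1 - x) ^ (s - 1) - 2)) x := by
    intro x hx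
    have h1 : HasDerivAt (fun y : ℝ => (1 + y) ^ s) (1 * s * (1 + x) ^ (s - 1)) x :=
      ((hasDerivAt_id x).const_add 1).rpow_const (Or.inl (by simp; linarith [hx.1]))
    have h2 : HasDerivAt (fun y : ℝ => (1 - y) ^ s) (-1 * s * (1 - x) ^ (s - 1)) x :=
      ((hasDerivAt_id x).const_sub 1).rpow_const (Or.inl (by simp; linarith [hx.2]))
    have h3 : HasDerivAt (fun y : ℝ => 2 * s * y) (2 * s * 1) x := (hasDerivAt_id x).const_mul _
    exact ((h1.sub h2).sub h3).congr_deriv (by ring)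
  have hmono : MonotoneOn g (Set.Ico 0 1) := by
    apply monotoneOn_of_deriv_nonneg (convex_Ico 0 1)
    · intro x hx
      exact (hder x hx).continuousAt.continuousWithinAt
    · intro x hx
      rw [interior_Ico] at hx
      exact (hder x ⟨hx.1.le, hx.2⟩).differentiableAt.differentiableWithinAt
    · intro x hx
      rw [interior_Ico] at hx
      rw [(hder x ⟨hx.1.le, hx.2⟩).deriv]
      apply mul_nonneg hs0
      have hx1 : 0 < 1 + x := by linarith [hx.1]
      have hx2 : 0 < 1 - x := by linarith [hx.2]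
      rw [rpow_def_of_pos hx1, rpow_def_of_pos hx2]
      have e1 := Real.add_one_le_exp (Real.log (1 + x) * (s - 1))
      have e2 := Real.add_one_le_exp (Real.log (1 - x) * (s - 1))
      have hl : Real.log (1 + x) + Real.log (1 - x) ≤ 0 := by
        rw [← Real.log_mul hx1.ne' hx2.ne']
        apply Real.log_nonpos (by positivity)
        nlinarith [sq_nonneg x]
      have := mul_nonneg_of_nonpos_of_nonpos hl (by linarith : s - 1 ≤ 0)
      nlinarith
  have h := hmono (show (0:ℝ) ∈ Set.Ico (0:ℝ) 1 by simp) (show t ∈ Set.Ico (0:ℝ) 1 from ⟨ht0, ht1⟩) ht0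
  simp only [hg] at h
  simp at h
  linarith

/-- `1 + p(p-1)/2 t² ≤ ((1+t)^p + (1-t)^p)/2`. -/
lemma lemB {p : ℝ} (hp1 : 1 ≤ p) (hp2 : p ≤ 2) {t : ℝ} (ht0 : 0 ≤ t) (ht1 : t ≤ 1) :
    1 + p / 2 * ((p - 1) * t ^ 2) ≤ ((1 + t) ^ p + (1 - t) ^ p) / 2 := by
  set g : ℝ → ℝ := fun t => ((1 + t) ^ p + (1 - t) ^ p) / 2 - 1 - p / 2 * ((p - 1) * t ^ 2) with hg
  have hder : ∀ x : ℝ, HasDerivAt g
      ((1 * p * (1 + x) ^ (p - 1) + -1 * p * (1 - x) ^ (p - 1)) / 2 -
        p / 2 * ((p - 1) * (2 * x ^ 1 * 1))) x := by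
    intro x
    have h1 : HasDerivAt (fun y : ℝ => (1 + y) ^ p) (1 * p * (1 + x) ^ (p - 1)) x :=
      ((hasDerivAt_id x).const_add 1).rpow_const (Or.inr hp1)
    have h2 : HasDerivAt (fun y : ℝ => (1 - y) ^ p) (-1 * p * (1 - x) ^ (p - 1)) x :=
      ((hasDerivAt_id x).const_sub 1).rpow_const (Or.inr hp1)
    have h3 : HasDerivAt (fun y : ℝ => p / 2 * ((p - 1) * y ^ 2))
        (p / 2 * ((p - 1) * (2 * x ^ 1 * 1))) x := by
      have := ((((hasDerivAt_id x).pow 2).const_mul (p - 1)).const_mul (p / 2))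
      simpa using this
    exact (((h1.add h2).div_const 2).sub_const 1).sub h3
  have hmono : MonotoneOn g (Set.Icc 0 1) := by
    apply monotoneOn_of_deriv_nonneg (convex_Icc 0 1)
    · intro x hx
      exact (hder x).continuousAt.continuousWithinAt
    · intro x hx
      exact (hder x).differentiableAt.differentiableWithinAt
    · intro x hx
      rw [interior_Icc] at hx
      rw [(hder x).deriv]
      have := lemA (s := p - 1) (by linarith) (by linarith) hx.1.le hx.2
      nlinarith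
  have h := hmono (show (0:ℝ) ∈ Set.Icc (0:ℝ) 1 by simp) (show t ∈ Set.Icc (0:ℝ) 1 from ⟨ht0, ht1⟩) ht0
  simp only [hg] at h
  simp at h
  linarith

lemma two_point_norm {p : ℝ} (hp1 : 1 ≤ p) (hp2 : p ≤ 2) {t : ℝ} (ht0 : 0 ≤ t) (ht1 : t ≤ 1) :
    (1 + (p - 1) * t ^ 2) ^ (p / 2) ≤ ((1 + t) ^ p + (1 - t) ^ p) / 2 := by
  refine le_trans ?_ (lemB hp1 hp2 ht0 ht1)
  exact rpow_one_add_le_one_add_mul_self (by nlinarith [sq_nonneg t, mul_nonneg (by linarith : 0 ≤ p - 1) (sq_nonneg t)])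
    (by linarith) (by linarith)

lemma two_point_abs {p : ℝ} (hp1 : 1 ≤ p) (hp2 : p ≤ 2) {u v : ℝ} (hv : 0 ≤ v) (huv : v ≤ u) :
    (u ^ 2 + (p - 1) * v ^ 2) ^ (p / 2) ≤ ((u + v) ^ p + (u - v) ^ p) / 2 := by
  rcases eq_or_lt_of_le (hv.trans huv) with h0 | h0
  · have hv0 : v = 0 := le_antisymm (by linarith) hv
    subst hv0
    rw [← h0]
    simp
    rw [zero_rpow (by linarith), zero_rpow (by linarith)]
  · have ht0 : 0 ≤ v / u := by positivity
    have ht1 : v / u ≤ 1 := by rw [div_le_one h0]; exact huv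
    have h := two_point_norm hp1 hp2 ht0 ht1
    have hup : 0 < u ^ p := rpow_pos_of_pos h0 p
    have e1 : (u ^ 2 + (p - 1) * v ^ 2) ^ (p / 2) = u ^ p * (1 + (p - 1) * (v / u) ^ 2) ^ (p / 2) := by
      have : u ^ 2 + (p - 1) * v ^ 2 = u ^ 2 * (1 + (p - 1) * (v / u) ^ 2) := by
        field_simp
      rw [this, mul_rpow (by positivity) (by nlinarith [mul_nonneg (by linarith : 0 ≤ p - 1) (sq_nonneg (v / u))])]
      congr 1
      rw [← rpow_natCast, ← rpow_mul h0.le]
      congr 1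
      push_cast; ring
    have e2 : (u + v) ^ p = u ^ p * (1 + v / u) ^ p := by
      rw [← mul_rpow h0.le (by positivity)]
      congr 1
      field_simp
    have e3 : (u - v) ^ p = u ^ p * (1 - v / u) ^ p := by
      rw [← mul_rpow h0.le (by linarith)]
      congr 1
      field_simp
    rw [e1, e2, e3]
    calc u ^ p * (1 + (p - 1) * (v / u) ^ 2) ^ (p / 2)
        ≤ u ^ p * (((1 + v / u) ^ p + (1 - v / u) ^ p) / 2) := mul_le_mul_of_nonneg_left h hup.le
      _ = _ := by ring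

/-- The two-point (Bonami) inequality. -/
theorem two_point {p : ℝ} (hp1 : 1 ≤ p) (hp2 : p ≤ 2) (u v : ℝ) :
    (u ^ 2 + (p - 1) * v ^ 2) ^ (p / 2) ≤ (|u + v| ^ p + |u - v| ^ p) / 2 := by
  have key : ∀ u v : ℝ, |v| ≤ |u| →
      (u ^ 2 + (p - 1) * v ^ 2) ^ (p / 2) ≤ (|u + v| ^ p + |u - v| ^ p) / 2 := by
    intro u v h
    have h1 := two_point_abs hp1 hp2 (abs_nonneg v) h
    rw [sq_abs, sq_abs] at h1
    refine h1.trans (le_of_eq ?_)
    have hs : (|u + v| = |u| + |v| ∧ |u - v| = |u| - |v|) ∨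
        (|u + v| = |u| - |v| ∧ |u - v| = |u| + |v|) := by
      rcases abs_cases u with ⟨hu, hu'⟩ | ⟨hu, hu'⟩ <;> rcases abs_cases v with ⟨hv, hv'⟩ | ⟨hv, hv'⟩
      · left
        constructor
        · rw [abs_of_nonneg (by linarith)]; linarith
        · rw [abs_of_nonneg (by linarith)]; linarith
      · right
        constructor
        · rw [abs_of_nonneg (by linarith)]; linarith
        · rw [abs_of_nonneg (by linarith)]; linarith
      · right
        constructor
        · rw [abs_of_nonpos (by linarith)]; linarith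
        · rw [abs_of_nonpos (by linarith)]; linarith
      · left
        constructor
        · rw [abs_of_nonpos (by linarith)]; linarith
        · rw [abs_of_nonpos (by linarith)]; linarith
    rcases hs with ⟨a, b⟩ | ⟨a, b⟩
    · rw [a, b]
    · rw [a, b, add_comm]
  rcases le_total |v| |u| with h | h
  · exact key u v h
  · have h1 := key v u h
    have h2 : |v + u| ^ p + |v - u| ^ p = |u + v| ^ p + |u - v| ^ p := by
      rw [add_comm v u, abs_sub_comm v u]
    rw [h2] at h1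
    refine le_trans ?_ h1
    apply rpow_le_rpow
    · nlinarith [sq_nonneg u, mul_nonneg (by linarith : 0 ≤ p - 1) (sq_nonneg v)]
    · have : u ^ 2 ≤ v ^ 2 := sq_le_sq.mpr h
      nlinarith
    · linarith

end Pool.Agent.Lib.MP_bcb457_an
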