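import Mathlib
import Pool.Agent.Lib.MP_bcb457_an.TwoPoint
import Pool.Agent.Lib.MP_bcb457_an.Mink

set_option autoImplicit false

namespace Pool.Agent.Lib.MP_bcb457_an

open Real Finset

variable {ι : Type*} [DecidableEq ι]

/-- The sign vector which is `-1` exactly on `T`. -/
def sg (T : Finset ι) (i : ι) : ℝ := if i ∈ T then -1 else 1

/-- The character `x^A` at the sign vector that is `-1` exactly on `T`. -/
def chi (A T : Finset ι) : ℝ := ∏ i ∈ A, sg T i

/-- The value at the sign vector `-1` exactly on `T` of the polynomial with coefficients `a` on the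
subsets of `V`. -/
def ev (a : Finset ι → ℝ) (V T : Finset ι) : ℝ := ∑ A ∈ V.powerset, a A * chi A T

lemma chi_insert_of_notMem {A T : Finset ι} {i : ι} (hi : i ∉ A) :
    chi A (insert i T) = chi A T := by
  unfold chi
  apply Finset.prod_congr rfl
  intro j hj
  have : j ≠ i := fun h => hi (h ▸ hj)
  simp [sg, Finset.mem_insert, this]

lemma chi_insert_left {A T : Finset ι} {i : ι} (hi : i ∉ A) :
    chi (insert i A) T = sg T i * chi A T := by
  unfold chi
  rw [Finset.prod_insert hi]

lemma ev_insert {a : Finset ι → ℝ} {W T : Finset ι} {i : ι} (hi : i ∉ W) (hT : i ∉ T) :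
    ev a (insert i W) T = ev a W T + ev (fun A => a (insert i A)) W T := by
  unfold ev
  rw [Finset.sum_powerset_insert hi]
  congr 1
  apply Finset.sum_congr rfl
  intro A hA
  have hiA : i ∉ A := fun h => hi (Finset.mem_powerset.mp hA h)
  rw [chi_insert_left hiA]
  simp [sg, hT]

lemma ev_insert' {a : Finset ι → ℝ} {W T : Finset ι} {i : ι} (hi : i ∉ W) :
    ev a (insert i W) (insert i T) = ev a W T - ev (fun A => a (insert i A)) W T := by
  unfold ev
  rw [Finset.sum_powerset_insert hi, sub_eq_add_neg, ← Finset.sum_neg_distrib]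
  congr 1
  · apply Finset.sum_congr rfl
    intro A hA
    have hiA : i ∉ A := fun h => hi (Finset.mem_powerset.mp hA h)
    rw [chi_insert_of_notMem hiA]
  · apply Finset.sum_congr rfl
    intro A hA
    have hiA : i ∉ A := fun h => hi (Finset.mem_powerset.mp hA h)
    rw [chi_insert_left hiA, chi_insert_of_notMem hiA]
    simp [sg]

/-- Bonami's hypercontractive inequality `L^2 → L^p`, `1 ≤ p ≤ 2`. -/
theorem hyper {p : ℝ} (hp1 : 1 ≤ p) (hp2 : p ≤ 2) (V : Finset ι) :
    ∀ a : Finset ι → ℝ,
      (∑ A ∈ V.powerset, (p - 1) ^ A.card * (a A) ^ 2) ^ (p / 2) ≤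
        (∑ T ∈ V.powerset, |ev a V T| ^ p) / 2 ^ V.card := by
  have hp0 : 0 < p := by linarith
  have hr : 1 ≤ 2 / p := by rw [le_div_iff₀ hp0]; linarith
  have hpm : 0 ≤ p - 1 := by linarith
  induction V using Finset.induction_on with
  | empty =>
    intro a
    simp [ev, chi]
    have h2 : (a ∅) ^ 2 = |a ∅| ^ (2:ℝ) := by rw [rpow_two, sq_abs]
    rw [h2, ← rpow_mul (abs_nonneg _)]
    apply le_of_eq
    congr 1
    ring
  | insert i W hi ih =>
    intro a
    set b : Finset ι → ℝ := fun A => a (insert i A) with hb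
    set S1 := ∑ A ∈ W.powerset, (p - 1) ^ A.card * (a A) ^ 2 with hS1
    set S2 := ∑ A ∈ W.powerset, (p - 1) ^ A.card * (b A) ^ 2 with hS2
    set N : ℝ := 2 ^ W.card with hN
    have hN0 : 0 < N := by positivity
    have hS10 : 0 ≤ S1 := Finset.sum_nonneg fun A _ => by positivity
    have hS20 : 0 ≤ S2 := Finset.sum_nonneg fun A _ => by positivity
    have e1 : ∑ A ∈ (insert i W).powerset, (p - 1) ^ A.card * (a A) ^ 2 = S1 + (p - 1) * S2 := by
      rw [Finset.sum_powerset_insert hi, hS2, Finset.mul_sum]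
      congr 1
      apply Finset.sum_congr rfl
      intro A hA
      have hiA : i ∉ A := fun h => hi (Finset.mem_powerset.mp hA h)
      rw [Finset.card_insert_of_notMem hiA, pow_succ]
      ring
    have e2 : ∑ T ∈ (insert i W).powerset, |ev a (insert i W) T| ^ p =
        ∑ T ∈ W.powerset, (|ev a W T + ev b W T| ^ p + |ev a W T - ev b W T| ^ p) := by
      rw [Finset.sum_powerset_insert hi, ← Finset.sum_add_distrib]
      apply Finset.sum_congr rfl
      intro T hT
      have hiT : i ∉ T := fun h => hi (Finset.mem_powerset.mp hT h)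
      rw [ev_insert hi hiT, ev_insert' hi]
    rw [e1, e2, Finset.card_insert_of_notMem hi]
    -- lower bound for the right side
    have h1 : ∑ T ∈ W.powerset, ((ev a W T) ^ 2 + (p - 1) * (ev b W T) ^ 2) ^ (p / 2) ≤
        (∑ T ∈ W.powerset, (|ev a W T + ev b W T| ^ p + |ev a W T - ev b W T| ^ p)) / 2 := by
      rw [Finset.sum_div]
      exact Finset.sum_le_sum fun T _ => two_point hp1 hp2 _ _
    -- Minkowski
    set X := ∑ T ∈ W.powerset, |ev a W T| ^ p with hX
    set Y := ∑ T ∈ W.powerset, (p - 1) ^ (p / 2) * |ev b W T| ^ p with hY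
    have h2 := minkowski (Finset.univ : Finset (Fin 2)) W.powerset
      (fun k T => if k = 0 then |ev a W T| ^ p else (p - 1) ^ (p / 2) * |ev b W T| ^ p)
      (by intro k T; split_ifs <;> positivity) hr
    simp only [Fin.sum_univ_two, if_true, one_ne_zero, if_false] at h2
    have hX0 : 0 ≤ X := Finset.sum_nonneg fun T _ => by positivity
    have hY0 : 0 ≤ Y := Finset.sum_nonneg fun T _ => by positivity
    have e3 : ∀ T ∈ W.powerset, ((|ev a W T| ^ p) ^ (2 / p) +
        ((p - 1) ^ (p / 2) * |ev b W T| ^ p) ^ (2 / p)) ^ (1 / (2 / p)) =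
        ((ev a W T) ^ 2 + (p - 1) * (ev b W T) ^ 2) ^ (p / 2) := by
      intro T _
      have hpp : p * (2 / p) = 2 := by field_simp
      have hpp' : p / 2 * (2 / p) = 1 := by field_simp
      rw [mul_rpow (by positivity) (by positivity), ← rpow_mul (abs_nonneg _),
        ← rpow_mul (abs_nonneg _), ← rpow_mul hpm, hpp, hpp', rpow_one]
      congr 1
      · rw [rpow_two, rpow_two, sq_abs, sq_abs]
      · field_simp
    rw [Finset.sum_congr rfl e3] at h2
    have h3 := h2.trans h1
    -- induction hypotheses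
    have i1 : S1 ≤ (X / N) ^ (2 / p) := by
      have := rpow_le_rpow (rpow_nonneg hS10 _) (ih a) (by positivity : 0 ≤ 2 / p)
      rwa [← rpow_mul hS10, (by field_simp : p / 2 * (2 / p) = 1), rpow_one] at this
    have i2 : (p - 1) * S2 ≤ (Y / N) ^ (2 / p) := by
      have := rpow_le_rpow (rpow_nonneg hS20 _) (ih b) (by positivity : 0 ≤ 2 / p)
      rw [← rpow_mul hS20, (by field_simp : p / 2 * (2 / p) = 1), rpow_one] at this
      have hY' : Y / N = (p - 1) ^ (p / 2) * ((∑ T ∈ W.powerset, |ev b W T| ^ p) / N) := by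
        rw [hY, ← Finset.mul_sum]; ring
      rw [hY', mul_rpow (by positivity) (div_nonneg (Finset.sum_nonneg fun T _ => by positivity) hN0.le),
        ← rpow_mul hpm, (by field_simp : p / 2 * (2 / p) = 1), rpow_one]
      exact mul_le_mul_of_nonneg_left this hpm
    calc (S1 + (p - 1) * S2) ^ (p / 2)
        ≤ ((X / N) ^ (2 / p) + (Y / N) ^ (2 / p)) ^ (p / 2) := by
          apply rpow_le_rpow (by positivity) (by linarith) (by positivity)
      _ = (X ^ (2 / p) + Y ^ (2 / p)) ^ (1 / (2 / p)) / N := by
          rw [div_rpow hX0 hN0.le, div_rpow hY0 hN0.le, ← add_div,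
            div_rpow (by positivity) (by positivity), ← rpow_mul hN0.le,
            (by field_simp : 2 / p * (p / 2) = 1), rpow_one]
          congr 2
          field_simp
      _ ≤ ((∑ T ∈ W.powerset, (|ev a W T + ev b W T| ^ p + |ev a W T - ev b W T| ^ p)) / 2) / N := by
          exact div_le_div_of_nonneg_right h3 hN0.le
      _ = _ := by
          rw [div_div, hN, pow_succ]
          congr 1
          ring

end Pool.Agent.Lib.MP_bcb457_an
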