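import Mathlib
import Pool.Agent.Lib.MP_bcb457_an.Hyper

set_option autoImplicit false

namespace Pool.Agent.Lib.MP_bcb457_an

open Real Finset

variable {ι : Type*} [DecidableEq ι]

/-- Splitting a sum over subsets of `V` along `J ⊆ V`. -/
lemma sum_split {M : Type*} [AddCommMonoid M] {V J : Finset ι} (hJ : J ⊆ V) (f : Finset ι → M) :
    ∑ A ∈ V.powerset, f A = ∑ A ∈ J.powerset, ∑ A' ∈ (V \ J).powerset, f (A ∪ A') := by
  rw [← Finset.sum_product']
  symm
  refine Finset.sum_nbij' (fun z => z.1 ∪ z.2) (fun A => (A ∩ J, A \ J)) ?_ ?_ ?_ ?_ ?_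
  · rintro ⟨A, A'⟩ h
    simp only [Finset.mem_product, Finset.mem_powerset] at h ⊢
    exact Finset.union_subset (h.1.trans hJ) (h.2.trans Finset.sdiff_subset)
  · intro A h
    simp only [Finset.mem_product, Finset.mem_powerset] at h ⊢
    exact ⟨Finset.inter_subset_right, Finset.sdiff_subset_sdiff h (subset_refl _)⟩
  · rintro ⟨A, A'⟩ h
    simp only [Finset.mem_product, Finset.mem_powerset] at h
    have h2 : ∀ x ∈ A', x ∉ J := fun x hx => (Finset.mem_sdiff.mp (h.2 hx)).2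
    have h1 : ∀ x ∈ A, x ∈ J := fun x hx => h.1 hx
    simp only [Prod.mk.injEq]
    constructor
    · ext x
      simp only [Finset.mem_inter, Finset.mem_union]
      constructor
      · rintro ⟨h3 | h3, h4⟩
        · exact h3
        · exact absurd h4 (h2 x h3)
      · intro h3
        exact ⟨Or.inl h3, h1 x h3⟩
    · ext x
      simp only [Finset.mem_sdiff, Finset.mem_union]
      constructor
      · rintro ⟨h3 | h3, h4⟩
        · exact absurd (h1 x h3) h4
        · exact h3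
      · intro h3
        exact ⟨Or.inr h3, h2 x h3⟩
  · intro A _
    ext x
    simp only [Finset.mem_union, Finset.mem_inter, Finset.mem_sdiff]
    tauto
  · intro z _
    rfl

lemma sg_union_left {x y : Finset ι} {J : Finset ι} (hy : Disjoint y J) {i : ι} (hi : i ∈ J) :
    sg (x ∪ y) i = sg x i := by
  have : i ∉ y := fun h => Finset.disjoint_left.mp hy h hi
  simp [sg, this]

lemma chi_union {A A' x y J K : Finset ι} (hJK : Disjoint J K) (hA : A ⊆ J) (hA' : A' ⊆ K)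
    (hx : x ⊆ J) (hy : y ⊆ K) : chi (A ∪ A') (x ∪ y) = chi A x * chi A' y := by
  unfold chi
  rw [Finset.prod_union (Disjoint.mono hA hA' hJK)]
  congr 1
  · apply Finset.prod_congr rfl
    intro i hi
    exact sg_union_left (Disjoint.mono_left hy hJK.symm) (hA hi)
  · apply Finset.prod_congr rfl
    intro i hi
    rw [Finset.union_comm]
    exact sg_union_left (Disjoint.mono_left hx hJK) (hA' hi)

lemma ev_split {a : Finset ι → ℝ} {V J : Finset ι} (hJ : J ⊆ V) {x y : Finset ι} (hx : x ⊆ J)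
    (hy : y ⊆ V \ J) :
    ev (fun A => ev (fun A' => a (A ∪ A')) (V \ J) y) J x = ev a V (x ∪ y) := by
  unfold ev
  rw [sum_split hJ]
  apply Finset.sum_congr rfl
  intro A hA
  rw [Finset.sum_mul]
  apply Finset.sum_congr rfl
  intro A' hA'
  rw [chi_union Finset.disjoint_sdiff (Finset.mem_powerset.mp hA) (Finset.mem_powerset.mp hA') hx hy]
  ring

/-- The bound predicate: for all polynomials of degree at most `D` bounded by `1` on the cube, the
`ℓ^p` norm of the coefficients of level at most `M` is at most `B`, `1/p = 1/2 + κ`. -/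
def Bd (ι : Type*) [DecidableEq ι] (D : ℕ) (M κ B : ℝ) : Prop :=
  ∀ (V : Finset ι) (a : Finset ι → ℝ), (∀ A : Finset ι, D < A.card → a A = 0) →
    (∀ T ⊆ V, |ev a V T| ≤ 1) →
      ∑ A ∈ V.powerset with (A.card : ℝ) ≤ M, |a A| ^ (2 / (1 + 2 * κ)) ≤ B ^ (2 / (1 + 2 * κ))

/-- The counting hypothesis of the halving step. -/
def Cnt (ι : Type*) [DecidableEq ι] (M M' : ℝ) : Prop :=
  ∀ V A : Finset ι, A ⊆ V → (A.card : ℝ) ≤ M →
    (2:ℝ) ^ V.card ≤
      2 * ((Finset.filter (fun J : Finset ι => ((A ∩ J).card : ℝ) ≤ M' ∧ ((A \ J).card : ℝ) ≤ M') V.powerset).card : ℝ)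

lemma mixed {D : ℕ} {M' κ B : ℝ} (hκ0 : 0 ≤ κ) (hκ : κ < 1 / 4) (hB : 0 ≤ B)
    (h : Bd ι D M' (2 * κ) B) (V J : Finset ι) (hJ : J ⊆ V) (a : Finset ι → ℝ)
    (hD : ∀ A : Finset ι, D < A.card → a A = 0) (hsup : ∀ T ⊆ V, |ev a V T| ≤ 1) :
    ∑ A ∈ J.powerset with (A.card : ℝ) ≤ M', (∑ A' ∈ (V \ J).powerset with (A'.card : ℝ) ≤ M',
      |a (A ∪ A')| ^ (2:ℝ)) ^ ((2 / (1 + 4 * κ)) / 2) ≤
      (((1 + 4 * κ) / (1 - 4 * κ)) ^ (M' / 2) * B) ^ (2 / (1 + 4 * κ)) := by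
  set q : ℝ := 2 / (1 + 4 * κ) with hq
  have hq1 : 1 ≤ q := by rw [hq, le_div_iff₀ (by linarith)]; linarith
  have hq2 : q ≤ 2 := by rw [hq, div_le_iff₀ (by linarith)]; linarith
  have hq2' : 2 / (1 + 2 * (2 * κ)) = q := by rw [hq]; congr 1; ring
  have hqm : q - 1 = (1 - 4 * κ) / (1 + 4 * κ) := by
    rw [hq]
    have : (1 + 4 * κ) ≠ 0 := by linarith
    field_simp
    ring
  have hqm0 : 0 < q - 1 := by
    rw [hqm]
    apply div_pos <;> linarith
  have hqm1 : q - 1 ≤ 1 := by linarith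
  have hrinv : (1 + 4 * κ) / (1 - 4 * κ) = (q - 1)⁻¹ := by rw [hqm, inv_div]
  set R : ℝ := (1 + 4 * κ) / (1 - 4 * κ) with hR
  have hR0 : 0 < R := by rw [hrinv]; positivity
  set K := V \ J with hK
  -- pointwise in A
  have step1 : ∀ A ∈ J.powerset.filter (fun A => (A.card : ℝ) ≤ M'),
      (∑ A' ∈ K.powerset with (A'.card : ℝ) ≤ M', |a (A ∪ A')| ^ (2:ℝ)) ^ (q / 2) ≤
      (R ^ (M' / 2)) ^ q * ((∑ y ∈ K.powerset, |ev (fun A' => a (A ∪ A')) K y| ^ q) / 2 ^ K.card) := by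
    intro A _
    have hh := hyper hq1 hq2 K (fun A' => a (A ∪ A'))
    have h1 : (q - 1) ^ M' * ∑ A' ∈ K.powerset with (A'.card : ℝ) ≤ M', |a (A ∪ A')| ^ (2:ℝ) ≤
        ∑ A' ∈ K.powerset, (q - 1) ^ A'.card * (a (A ∪ A')) ^ 2 := by
      rw [Finset.mul_sum]
      refine le_trans ?_ (Finset.sum_le_sum_of_subset_of_nonneg
        (Finset.filter_subset (fun A' : Finset ι => (A'.card : ℝ) ≤ M') K.powerset)
        (fun i _ _ => by positivity))
      apply Finset.sum_le_sum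
      intro A' hA'
      rw [Finset.mem_filter] at hA'
      rw [rpow_two, sq_abs]
      apply mul_le_mul_of_nonneg_right _ (sq_nonneg _)
      rw [← rpow_natCast]
      exact rpow_le_rpow_of_exponent_ge hqm0 hqm1 hA'.2
    have h2 : ∑ A' ∈ K.powerset with (A'.card : ℝ) ≤ M', |a (A ∪ A')| ^ (2:ℝ) ≤
        R ^ M' * ∑ A' ∈ K.powerset, (q - 1) ^ A'.card * (a (A ∪ A')) ^ 2 := by
      rw [hrinv, inv_rpow hqm0.le]
      rw [← div_eq_inv_mul, le_div_iff₀ (by positivity)]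
      linarith
    calc (∑ A' ∈ K.powerset with (A'.card : ℝ) ≤ M', |a (A ∪ A')| ^ (2:ℝ)) ^ (q / 2)
        ≤ (R ^ M' * ∑ A' ∈ K.powerset, (q - 1) ^ A'.card * (a (A ∪ A')) ^ 2) ^ (q / 2) :=
          rpow_le_rpow (Finset.sum_nonneg fun _ _ => by positivity) h2 (by positivity)
      _ = (R ^ M') ^ (q / 2) *
          (∑ A' ∈ K.powerset, (q - 1) ^ A'.card * (a (A ∪ A')) ^ 2) ^ (q / 2) := by
          rw [mul_rpow (by positivity) (Finset.sum_nonneg fun _ _ => by positivity)]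
      _ ≤ (R ^ M') ^ (q / 2) *
          ((∑ y ∈ K.powerset, |ev (fun A' => a (A ∪ A')) K y| ^ q) / 2 ^ K.card) :=
          mul_le_mul_of_nonneg_left hh (by positivity)
      _ = _ := by
          congr 1
          rw [← rpow_mul hR0.le, ← rpow_mul hR0.le]
          congr 1
          ring
  refine le_trans (Finset.sum_le_sum step1) ?_
  rw [← Finset.mul_sum, ← Finset.sum_div, Finset.sum_comm]
  rw [mul_rpow (by positivity) hB]
  apply mul_le_mul_of_nonneg_left _ (by positivity)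
  rw [div_le_iff₀ (by positivity)]
  have step2 : ∀ y ∈ K.powerset, ∑ A ∈ J.powerset with (A.card : ℝ) ≤ M',
      |ev (fun A' => a (A ∪ A')) K y| ^ q ≤ B ^ q := by
    intro y hy
    have h3 := h J (fun A => ev (fun A' => a (A ∪ A')) K y) ?_ ?_
    · rw [hq2'] at h3
      exact h3
    · intro A hA
      unfold ev
      apply Finset.sum_eq_zero
      intro A' _
      show a (A ∪ A') * chi A' y = 0
      rw [hD (A ∪ A') (lt_of_lt_of_le hA (Finset.card_le_card Finset.subset_union_left)), zero_mul]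
    · intro T hT
      rw [ev_split hJ hT (Finset.mem_powerset.mp hy)]
      exact hsup _ (Finset.union_subset (hT.trans hJ)
        ((Finset.mem_powerset.mp hy).trans Finset.sdiff_subset))
  refine le_trans (Finset.sum_le_sum step2) ?_
  rw [Finset.sum_const, Finset.card_powerset, nsmul_eq_mul]
  push_cast
  linarith

lemma perJ {M M' p q L : ℝ} (hq1 : 1 ≤ q) (hq2 : q ≤ 2) (hpq : p = 4 * q / (2 + q)) (hL0 : 0 ≤ L)
    (V J : Finset ι) (hJ : J ⊆ V) (a : Finset ι → ℝ)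
    (H1 : ∑ A ∈ J.powerset with (A.card : ℝ) ≤ M', (∑ A' ∈ (V \ J).powerset with (A'.card : ℝ) ≤ M',
      |a (A ∪ A')| ^ (2:ℝ)) ^ (q / 2) ≤ L ^ q)
    (H2 : ∑ A ∈ (V \ J).powerset with (A.card : ℝ) ≤ M', (∑ A' ∈ J.powerset with (A'.card : ℝ) ≤ M',
      |a (A ∪ A')| ^ (2:ℝ)) ^ (q / 2) ≤ L ^ q) :
    ∑ A ∈ V.powerset with (A.card : ℝ) ≤ M,
      (if ((A ∩ J).card : ℝ) ≤ M' ∧ ((A \ J).card : ℝ) ≤ M' then |a A| ^ p else 0) ≤ L ^ p := by
  have H2' : ∑ j ∈ (V \ J).powerset with (j.card : ℝ) ≤ M',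
      (∑ i ∈ J.powerset with (i.card : ℝ) ≤ M', |a (i ∪ j)| ^ (2:ℝ)) ^ (q / 2) ≤ L ^ q := by
    refine le_trans (le_of_eq ?_) H2
    apply Finset.sum_congr rfl
    intro j _
    congr 1
    apply Finset.sum_congr rfl
    intro i _
    rw [Finset.union_comm]
  have H30 := interp (J.powerset.filter (fun A => (A.card : ℝ) ≤ M'))
    ((V \ J).powerset.filter (fun A => (A.card : ℝ) ≤ M')) (fun A A' => |a (A ∪ A')|)
    (fun _ _ => abs_nonneg _) (p := p) (q := q) (L := L) hq1 hq2 hpq hL0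
  have H31 := H30 H1
  have H3 := H31 H2'
  clear H30 H31
  refine le_trans ?_ H3
  rw [← Finset.sum_filter, ← Finset.sum_product', Finset.filter_filter]
  set G := V.powerset.filter (fun A => (A.card : ℝ) ≤ M ∧
    (((A ∩ J).card : ℝ) ≤ M' ∧ ((A \ J).card : ℝ) ≤ M')) with hG
  have hback : ∀ A : Finset ι, (A ∩ J) ∪ (A \ J) = A := by
    intro A
    ext x
    simp only [Finset.mem_union, Finset.mem_inter, Finset.mem_sdiff]
    tauto
  have hinj : Set.InjOn (fun A : Finset ι => (A ∩ J, A \ J)) (G : Set (Finset ι)) := by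
    intro A _ A' _ h
    simp only [Prod.mk.injEq] at h
    rw [← hback A, ← hback A', h.1, h.2]
  have e1 : ∑ A ∈ G, |a A| ^ p =
      ∑ z ∈ G.image (fun A : Finset ι => (A ∩ J, A \ J)), |a (z.1 ∪ z.2)| ^ p := by
    rw [Finset.sum_image hinj]
    apply Finset.sum_congr rfl
    intro A _
    rw [hback A]
  rw [e1]
  apply Finset.sum_le_sum_of_subset_of_nonneg
  · intro z hz
    rw [Finset.mem_image] at hz
    obtain ⟨A, hA, rfl⟩ := hz
    rw [hG, Finset.mem_filter, Finset.mem_powerset] at hA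
    simp only [Finset.mem_product, Finset.mem_filter, Finset.mem_powerset]
    exact ⟨⟨Finset.inter_subset_right, hA.2.2.1⟩,
      ⟨Finset.sdiff_subset_sdiff hA.1 (subset_refl _), hA.2.2.2⟩⟩
  · intro z _ _
    positivity

theorem halving {D : ℕ} {M M' κ B : ℝ} (hκ0 : 0 ≤ κ) (hκ : κ < 1 / 4) (hB : 0 ≤ B)
    (hcnt : Cnt ι M M') (h : Bd ι D M' (2 * κ) B) :
    Bd ι D M κ (2 * (((1 + 4 * κ) / (1 - 4 * κ)) ^ (M' / 2) * B)) := by
  intro V a hD hsup
  obtain ⟨L, hL⟩ : ∃ L, L = ((1 + 4 * κ) / (1 - 4 * κ)) ^ (M' / 2) * B := ⟨_, rfl⟩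
  rw [← hL]
  have hL0 : 0 ≤ L := by
    rw [hL]
    apply mul_nonneg _ hB
    apply rpow_nonneg
    apply div_nonneg <;> linarith
  obtain ⟨q, hq⟩ : ∃ q, q = 2 / (1 + 4 * κ) := ⟨_, rfl⟩
  have hq1 : 1 ≤ q := by rw [hq, le_div_iff₀ (by linarith)]; linarith
  have hq2 : q ≤ 2 := by rw [hq, div_le_iff₀ (by linarith)]; linarith
  obtain ⟨p, hp⟩ : ∃ p, p = 2 / (1 + 2 * κ) := ⟨_, rfl⟩
  rw [← hp]
  have hp1 : 1 ≤ p := by rw [hp, le_div_iff₀ (by linarith)]; linarith
  have hpq : p = 4 * q / (2 + q) := by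
    rw [hp, hq]
    have h1 : (1 + 4 * κ) ≠ 0 := by linarith
    have h2 : (1 + 2 * κ) ≠ 0 := by linarith
    have h3 : 2 + 2 / (1 + 4 * κ) ≠ 0 := by positivity
    field_simp
    ring
  -- bound for each J
  have hJb : ∀ J ∈ V.powerset, ∑ A ∈ V.powerset with (A.card : ℝ) ≤ M,
      (if ((A ∩ J).card : ℝ) ≤ M' ∧ ((A \ J).card : ℝ) ≤ M' then |a A| ^ p else 0) ≤ L ^ p := by
    intro J hJ
    rw [Finset.mem_powerset] at hJ
    have H1 := mixed hκ0 hκ hB h V J hJ a hD hsup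
    have H2 := mixed hκ0 hκ hB h V (V \ J) Finset.sdiff_subset a hD hsup
    rw [Finset.sdiff_sdiff_eq_self hJ] at H2
    rw [← hq, ← hL] at H1 H2
    exact perJ hq1 hq2 hpq hL0 V J hJ a H1 H2
  -- averaging
  have havg := Finset.sum_le_sum hJb
  rw [Finset.sum_comm, Finset.sum_const, Finset.card_powerset, nsmul_eq_mul] at havg
  have hlow : ∀ A ∈ V.powerset.filter (fun A => (A.card : ℝ) ≤ M),
      (2:ℝ) ^ V.card / 2 * |a A| ^ p ≤ ∑ J ∈ V.powerset,
      (if ((A ∩ J).card : ℝ) ≤ M' ∧ ((A \ J).card : ℝ) ≤ M' then |a A| ^ p else 0) := by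
    intro A hA
    rw [Finset.mem_filter, Finset.mem_powerset] at hA
    rw [← Finset.sum_filter, Finset.sum_const, nsmul_eq_mul]
    apply mul_le_mul_of_nonneg_right _ (by positivity)
    have := hcnt V A hA.1 hA.2
    linarith
  have h5 := (Finset.sum_le_sum hlow).trans havg
  rw [← Finset.mul_sum] at h5
  have hN : (0:ℝ) < 2 ^ V.card := by positivity
  push_cast at h5
  have h6 : ∑ A ∈ V.powerset with (A.card : ℝ) ≤ M, |a A| ^ p ≤ 2 * L ^ p := by
    have h7 : (2:ℝ) ^ V.card * (∑ A ∈ V.powerset with (A.card : ℝ) ≤ M, |a A| ^ p) ≤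
        2 ^ V.card * (2 * L ^ p) := by linarith
    exact le_of_mul_le_mul_left h7 hN
  refine h6.trans ?_
  rw [mul_rpow (by norm_num) hL0]
  apply mul_le_mul_of_nonneg_right _ (by positivity)
  calc (2:ℝ) = 2 ^ (1:ℝ) := by rw [rpow_one]
    _ ≤ 2 ^ p := rpow_le_rpow_of_exponent_le (by norm_num) hp1

end Pool.Agent.Lib.MP_bcb457_an
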