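import Mathlib
import Pool.Agent.Lib.MP_bcb457_an.Split
import Pool.Agent.Lib.MP_bcb457_an.Markov

set_option autoImplicit false

namespace Pool.Agent.Lib.MP_bcb457_an

open Real Finset

variable {ι : Type*} [DecidableEq ι]

lemma chi_comm_prod (A T : Finset ι) : ∏ i ∈ T, (if i ∈ A then (-1:ℝ) else 1) = chi A T := by
  unfold chi sg
  rw [Finset.prod_ite_mem, Finset.prod_ite_mem, Finset.inter_comm]

/-- Averages of characters against a product measure. -/
lemma avg_chi {V A : Finset ι} (hA : A ⊆ V) (t : ℝ) :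
    ∑ T ∈ V.powerset, (((1 - t) / 2) ^ T.card * ((1 + t) / 2) ^ (V \ T).card) * chi A T =
      t ^ A.card := by
  have h := Finset.prod_add (fun i => (1 - t) / 2 * (if i ∈ A then (-1:ℝ) else 1))
    (fun _ => (1 + t) / 2) V
  have h1 : ∏ i ∈ V, ((1 - t) / 2 * (if i ∈ A then (-1:ℝ) else 1) + (1 + t) / 2) = t ^ A.card := by
    have : ∀ i ∈ V, ((1 - t) / 2 * (if i ∈ A then (-1:ℝ) else 1) + (1 + t) / 2) =
        if i ∈ A then t else 1 := by
      intro i _
      split_ifs <;> ring
    rw [Finset.prod_congr rfl this, Finset.prod_ite_mem, Finset.inter_eq_right.mpr hA,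
      Finset.prod_const]
  rw [h1] at h
  rw [h]
  apply Finset.sum_congr rfl
  intro T _
  rw [Finset.prod_mul_distrib, chi_comm_prod, Finset.prod_const, Finset.prod_const]
  ring

lemma sum_pow_le_one {a : Finset ι → ℝ} {V : Finset ι} (h : ∀ T ⊆ V, |ev a V T| ≤ 1) {t : ℝ}
    (ht : |t| ≤ 1) : |∑ A ∈ V.powerset, a A * t ^ A.card| ≤ 1 := by
  rw [abs_le] at ht
  set w : Finset ι → ℝ := fun T => ((1 - t) / 2) ^ T.card * ((1 + t) / 2) ^ (V \ T).card with hw
  have hw0 : ∀ T, 0 ≤ w T := fun T => mul_nonneg (pow_nonneg (by linarith) _) (pow_nonneg (by linarith) _)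
  have hw1 : ∑ T ∈ V.powerset, w T = 1 := by
    have := avg_chi (Finset.empty_subset V) t
    simpa [chi] using this
  have e : ∑ A ∈ V.powerset, a A * t ^ A.card = ∑ T ∈ V.powerset, w T * ev a V T := by
    unfold ev
    simp only [Finset.mul_sum]
    rw [Finset.sum_comm]
    apply Finset.sum_congr rfl
    intro A hA
    rw [← avg_chi (Finset.mem_powerset.mp hA) t, Finset.mul_sum]
    apply Finset.sum_congr rfl
    intro T _
    rw [hw]
    ring
  rw [e]
  calc |∑ T ∈ V.powerset, w T * ev a V T| ≤ ∑ T ∈ V.powerset, |w T * ev a V T| :=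
        Finset.abs_sum_le_sum_abs _ _
    _ ≤ ∑ T ∈ V.powerset, w T := by
        apply Finset.sum_le_sum
        intro T hT
        rw [abs_mul, abs_of_nonneg (hw0 T)]
        have := h T (Finset.mem_powerset.mp hT)
        nlinarith [hw0 T]
    _ = 1 := hw1

lemma sg_symmDiff (S T : Finset ι) (i : ι) : sg (symmDiff S T) i = sg S i * sg T i := by
  unfold sg
  by_cases h1 : i ∈ S <;> by_cases h2 : i ∈ T <;> simp [Finset.mem_symmDiff, h1, h2]

lemma chi_symmDiff (A S T : Finset ι) : chi A (symmDiff S T) = chi A S * chi A T := by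
  unfold chi
  rw [← Finset.prod_mul_distrib]
  exact Finset.prod_congr rfl fun i _ => sg_symmDiff S T i

lemma ev_twist (a : Finset ι → ℝ) (V S T : Finset ι) :
    ev (fun A => a A * chi A S) V T = ev a V (symmDiff S T) := by
  unfold ev
  apply Finset.sum_congr rfl
  intro A _
  rw [chi_symmDiff]
  ring

/-- The level-one inequality. -/
theorem level_one {D : ℕ} (hD : 1 ≤ D) (V : Finset ι) (a : Finset ι → ℝ)
    (hdeg : ∀ A : Finset ι, D < A.card → a A = 0) (h : ∀ T ⊆ V, |ev a V T| ≤ 1) :
    ∑ A ∈ V.powerset with (A.card : ℝ) ≤ 1, |a A| ≤ 1 + 2 * (D:ℝ) * (D + 1) := by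
  set S : Finset ι := V.filter (fun i => a {i} < 0) with hS
  set b : Finset ι → ℝ := fun A => a A * chi A S with hb
  have hbT : ∀ T ⊆ V, |ev b V T| ≤ 1 := by
    intro T hT
    rw [hb, ev_twist]
    apply h
    intro x hx
    rw [Finset.mem_symmDiff] at hx
    rcases hx with ⟨hx, _⟩ | ⟨hx, _⟩
    · exact (Finset.mem_filter.mp hx).1
    · exact hT hx
  set c : ℕ → ℝ := fun k => ∑ A ∈ V.powerset with A.card = k, b A with hc
  have hpoly : ∀ t : ℝ, ∑ A ∈ V.powerset, b A * t ^ A.card = ∑ k ∈ Finset.range (D + 1), c k * t ^ k := by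
    intro t
    have h1 : ∑ A ∈ V.powerset, b A * t ^ A.card =
        ∑ A ∈ V.powerset with A.card ∈ Finset.range (D + 1), b A * t ^ A.card := by
      symm
      apply Finset.sum_subset (Finset.filter_subset _ _)
      intro A hA hA'
      rw [Finset.mem_filter, not_and, Finset.mem_range, not_lt] at hA'
      have := hA' hA
      rw [hb]
      simp only
      rw [hdeg A (by omega)]
      ring
    rw [h1, ← Finset.sum_fiberwise_of_maps_to (s := V.powerset.filter (fun A => A.card ∈ Finset.range (D + 1)))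
      (t := Finset.range (D + 1)) (g := fun A => A.card)
      (fun A hA => (Finset.mem_filter.mp hA).2)]
    apply Finset.sum_congr rfl
    intro k hk
    rw [hc, Finset.sum_mul, Finset.filter_filter]
    have h2 : V.powerset.filter (fun A => A.card ∈ Finset.range (D + 1) ∧ A.card = k) =
        V.powerset.filter (fun A => A.card = k) := by
      apply Finset.filter_congr
      intro A _
      constructor
      · exact fun h => h.2
      · exact fun h => ⟨h ▸ hk, h⟩
    rw [h2]
    apply Finset.sum_congr rfl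
    intro A hA
    rw [(Finset.mem_filter.mp hA).2]
  have hbound : ∀ t : ℝ, |t| ≤ 1 → |∑ k ∈ Finset.range (D + 1), c k * t ^ k| ≤ 1 := by
    intro t ht
    rw [← hpoly t]
    exact sum_pow_le_one hbT ht
  have hc1 := coeff_one_le c D hD hbound
  have hc0 : |c 0| ≤ 1 := by
    have := hbound 0 (by simp)
    rw [Finset.sum_range_succ'] at this
    simpa using this
  have e0 : c 0 = ∑ A ∈ V.powerset with A.card = 0, a A := by
    rw [hc]
    apply Finset.sum_congr rfl
    intro A hA
    have : A = ∅ := Finset.card_eq_zero.mp (Finset.mem_filter.mp hA).2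
    rw [hb, this]
    simp [chi]
  have e00 : V.powerset.filter (fun A => A.card = 0) = {∅} := by
    ext A
    simp only [Finset.mem_filter, Finset.mem_powerset, Finset.card_eq_zero, Finset.mem_singleton]
    constructor
    · exact fun h => h.2
    · intro h; subst h; exact ⟨Finset.empty_subset _, rfl⟩
  have e1 : c 1 = ∑ A ∈ V.powerset with A.card = 1, |a A| := by
    rw [hc]
    apply Finset.sum_congr rfl
    intro A hA
    rw [Finset.mem_filter, Finset.mem_powerset, Finset.card_eq_one] at hA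
    obtain ⟨hAV, i, rfl⟩ := hA
    have hi : i ∈ V := hAV (Finset.mem_singleton_self i)
    rw [hb]
    simp only [chi, Finset.prod_singleton, sg, hS, Finset.mem_filter, hi, true_and]
    split_ifs with h1
    · rw [abs_of_neg h1]; ring
    · rw [abs_of_nonneg (not_lt.mp h1)]; ring
  have esplit : V.powerset.filter (fun A => (A.card : ℝ) ≤ 1) =
      V.powerset.filter (fun A => A.card = 0) ∪ V.powerset.filter (fun A => A.card = 1) := by
    rw [← Finset.filter_or]
    apply Finset.filter_congr
    intro A _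
    have : (A.card : ℝ) ≤ 1 ↔ A.card ≤ 1 := by exact_mod_cast Iff.rfl
    rw [this]
    omega
  rw [esplit, Finset.sum_union, ← e1, e00, Finset.sum_singleton]
  · rw [e00, Finset.sum_singleton] at e0
    rw [← e0]
    have h1 : c 1 ≤ |c 1| := le_abs_self _
    linarith
  · rw [Finset.disjoint_filter]
    intro A _ h1 h2
    omega

/-- The bound predicate at level one. -/
theorem bd_one {D : ℕ} (hD : 1 ≤ D) {κ : ℝ} (hκ0 : 0 ≤ κ) (hκ : κ ≤ 1 / 2) :
    Bd ι D 1 κ (1 + 2 * (D:ℝ) * (D + 1)) := by
  intro V a hdeg h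
  have hl := level_one hD V a hdeg h
  set p : ℝ := 2 / (1 + 2 * κ) with hp
  have hp1 : 1 ≤ p := by rw [hp, le_div_iff₀ (by linarith)]; linarith
  set s := V.powerset.filter (fun A => (A.card : ℝ) ≤ 1) with hs
  set X := ∑ A ∈ s, |a A| with hX
  have hX0 : 0 ≤ X := Finset.sum_nonneg fun _ _ => abs_nonneg _
  have h1 : ∀ A ∈ s, |a A| ^ p ≤ |a A| * X ^ (p - 1) := by
    intro A hA
    have h2 : |a A| ≤ X := Finset.single_le_sum (f := fun A => |a A|) (fun _ _ => abs_nonneg _) hA
    have h3 : |a A| ^ p = |a A| * |a A| ^ (p - 1) := by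
      conv_lhs => rw [show p = 1 + (p - 1) by ring]
      rw [rpow_add_of_nonneg (abs_nonneg _) (by norm_num) (by linarith), rpow_one]
    rw [h3]
    exact mul_le_mul_of_nonneg_left (rpow_le_rpow (abs_nonneg _) h2 (by linarith)) (abs_nonneg _)
  calc ∑ A ∈ s, |a A| ^ p ≤ ∑ A ∈ s, |a A| * X ^ (p - 1) := Finset.sum_le_sum h1
    _ = X * X ^ (p - 1) := by rw [← Finset.sum_mul]
    _ = X ^ p := by
        conv_rhs => rw [show p = 1 + (p - 1) by ring]
        rw [rpow_add_of_nonneg hX0 (by norm_num) (by linarith), rpow_one]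
    _ ≤ _ := rpow_le_rpow hX0 hl (by linarith)

end Pool.Agent.Lib.MP_bcb457_an
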