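import Mathlib
import Pool.Agent.Lib.MP_bcb457_an.Split

set_option autoImplicit false

namespace Pool.Agent.Lib.MP_bcb457_an

open Real Finset

variable {ι : Type*} [DecidableEq ι]

lemma cnt_of {M M' : ℝ} (h : ∀ A : Finset ι, (A.card : ℝ) ≤ M →
    (2:ℝ) ^ A.card ≤ 2 * ((Finset.filter (fun J : Finset ι => (J.card : ℝ) ≤ M' ∧ ((A \ J).card : ℝ) ≤ M') A.powerset).card : ℝ)) :
    Cnt ι M M' := by
  intro V A hAV hA
  have e : ((Finset.filter (fun J : Finset ι => ((A ∩ J).card : ℝ) ≤ M' ∧ ((A \ J).card : ℝ) ≤ M') V.powerset).card : ℝ) =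
      2 ^ (V \ A).card * ((Finset.filter (fun J : Finset ι => (J.card : ℝ) ≤ M' ∧ ((A \ J).card : ℝ) ≤ M') A.powerset).card : ℝ) := by
    rw [Finset.card_filter, Finset.card_filter]
    push_cast
    rw [sum_split hAV, Finset.mul_sum]
    apply Finset.sum_congr rfl
    intro J hJ
    rw [Finset.mem_powerset] at hJ
    have : ∀ K ∈ (V \ A).powerset,
        (if ((A ∩ (J ∪ K)).card : ℝ) ≤ M' ∧ ((A \ (J ∪ K)).card : ℝ) ≤ M' then (1:ℝ) else 0) =
        (if (J.card : ℝ) ≤ M' ∧ ((A \ J).card : ℝ) ≤ M' then (1:ℝ) else 0) := by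
      intro K hK
      rw [Finset.mem_powerset] at hK
      have hK' : ∀ x ∈ K, x ∉ A := fun x hx => (Finset.mem_sdiff.mp (hK hx)).2
      have h1 : A ∩ (J ∪ K) = J := by
        ext x
        simp only [Finset.mem_inter, Finset.mem_union]
        constructor
        · rintro ⟨h1, h2 | h2⟩
          · exact h2
          · exact absurd h1 (hK' x h2)
        · intro h1
          exact ⟨hJ h1, Or.inl h1⟩
      have h2 : A \ (J ∪ K) = A \ J := by
        ext x
        simp only [Finset.mem_sdiff, Finset.mem_union]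
        constructor
        · rintro ⟨h1, h2⟩
          exact ⟨h1, fun h3 => h2 (Or.inl h3)⟩
        · rintro ⟨h1, h2⟩
          exact ⟨h1, fun h3 => h3.elim h2 fun h4 => hK' x h4 h1⟩
      rw [h1, h2]
    rw [Finset.sum_congr rfl this, Finset.sum_const, Finset.card_powerset, nsmul_eq_mul]
    push_cast
    ring
  rw [e]
  have h2 : (2:ℝ) ^ V.card = 2 ^ (V \ A).card * 2 ^ A.card := by
    rw [← pow_add, Finset.card_sdiff_add_card_eq_card hAV]
  rw [h2]
  have := mul_le_mul_of_nonneg_left (h A hA) (by positivity : (0:ℝ) ≤ 2 ^ (V \ A).card)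
  linarith

lemma second_moment (A : Finset ι) :
    ∑ J ∈ A.powerset, (2 * (J.card : ℝ) - A.card) ^ 2 = (2:ℝ) ^ A.card * (A.card : ℝ) := by
  induction A using Finset.induction_on with
  | empty => simp
  | insert i W hi ih =>
    rw [Finset.sum_powerset_insert hi, Finset.card_insert_of_notMem hi, ← Finset.sum_add_distrib]
    have : ∀ J ∈ W.powerset, (2 * (J.card : ℝ) - ((W.card + 1 : ℕ) : ℝ)) ^ 2 +
        (2 * ((insert i J).card : ℝ) - ((W.card + 1 : ℕ) : ℝ)) ^ 2 =
        2 * (2 * (J.card : ℝ) - W.card) ^ 2 + 2 := by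
      intro J hJ
      have hiJ : i ∉ J := fun h => hi (Finset.mem_powerset.mp hJ h)
      rw [Finset.card_insert_of_notMem hiJ]
      push_cast
      ring
    rw [Finset.sum_congr rfl this, Finset.sum_add_distrib, ← Finset.mul_sum, ih, Finset.sum_const,
      Finset.card_powerset, nsmul_eq_mul]
    push_cast
    ring

omit [DecidableEq ι] in
lemma card_le_of_bad {A : Finset ι} {P : Finset ι → Prop} [DecidablePred P]
    (h : 2 * ((Finset.filter (fun J => ¬ P J) A.powerset).card : ℝ) ≤ 2 ^ A.card) :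
    (2:ℝ) ^ A.card ≤ 2 * ((Finset.filter (fun J => P J) A.powerset).card : ℝ) := by
  have h1 := Finset.card_filter_add_card_filter_not (s := A.powerset) P
  rw [Finset.card_powerset] at h1
  have h2 : ((Finset.filter (fun J => P J) A.powerset).card : ℝ) + ((Finset.filter (fun J => ¬ P J) A.powerset).card : ℝ) = 2 ^ A.card := by
    exact_mod_cast h1
  linarith

/-- The counting hypothesis from the second moment method. -/
theorem cnt_big {M M' : ℝ} (hM : 0 < M) (h1 : M ≤ 2 * M') (h2 : 2 * M ≤ (2 * M' - M) ^ 2) :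
    Cnt ι M M' := by
  apply cnt_of
  intro A hA
  apply card_le_of_bad
  have h3 := second_moment A
  set bad := A.powerset.filter (fun J => ¬ ((J.card : ℝ) ≤ M' ∧ ((A \ J).card : ℝ) ≤ M')) with hbad
  have h4 : ∑ J ∈ bad, (2 * M' - M) ^ 2 ≤ ∑ J ∈ A.powerset, (2 * (J.card : ℝ) - A.card) ^ 2 := by
    refine le_trans (Finset.sum_le_sum (f := fun _ => (2 * M' - M) ^ 2)
      (g := fun J => (2 * (J.card : ℝ) - A.card) ^ 2) ?_)
      (Finset.sum_le_sum_of_subset_of_nonneg (Finset.filter_subset _ _) (fun J _ _ => sq_nonneg _))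
    intro J hJ
    rw [hbad, Finset.mem_filter, Finset.mem_powerset] at hJ
    have hc : ((A \ J).card : ℝ) = (A.card : ℝ) - J.card := by
      have := Finset.card_sdiff_add_card_eq_card hJ.1
      rw [← this]; push_cast; ring
    rw [hc] at hJ
    have h5 : M' < (J.card : ℝ) ∨ M' < (A.card : ℝ) - J.card := by
      by_contra hcon
      push Not at hcon
      exact hJ.2 ⟨hcon.1, hcon.2⟩
    rcases h5 with h5 | h5
    · apply pow_le_pow_left₀ (by linarith); linarith
    · rw [← neg_sq (2 * (J.card : ℝ) - A.card)]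
      apply pow_le_pow_left₀ (by linarith); linarith
  rw [h3, Finset.sum_const, nsmul_eq_mul] at h4
  have h5 : (0:ℝ) < 2 ^ A.card := by positivity
  have h6 : (bad.card : ℝ) * (2 * M) ≤ 2 ^ A.card * M := by
    calc (bad.card : ℝ) * (2 * M) ≤ (bad.card : ℝ) * (2 * M' - M) ^ 2 :=
          mul_le_mul_of_nonneg_left h2 (by positivity)
      _ ≤ 2 ^ A.card * A.card := h4
      _ ≤ 2 ^ A.card * M := mul_le_mul_of_nonneg_left hA h5.le
  have h7 : (2 * (bad.card : ℝ)) * M ≤ 2 ^ A.card * M := by linarith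
  exact le_of_mul_le_mul_right h7 hM

/-- The counting hypothesis for reducing the level by one. -/
theorem cnt_small (m : ℕ) (hm : 1 ≤ m) : Cnt ι ((m:ℝ) + 1) m := by
  apply cnt_of
  intro A hA
  apply card_le_of_bad
  have hA' : A.card ≤ m + 1 := by exact_mod_cast hA
  rcases Nat.lt_or_ge m A.card with h | h
  · have hc : A.card = m + 1 := by omega
    have hsub : A.powerset.filter (fun J => ¬ ((J.card : ℝ) ≤ m ∧ ((A \ J).card : ℝ) ≤ m)) ⊆
        {A, ∅} := by
      intro J hJ
      rw [Finset.mem_filter, Finset.mem_powerset] at hJ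
      have h1 := Finset.card_sdiff_add_card_eq_card hJ.1
      have h2 : m < J.card ∨ m < (A \ J).card := by
        by_contra hcon
        push Not at hcon
        exact hJ.2 ⟨by exact_mod_cast hcon.1, by exact_mod_cast hcon.2⟩
      rw [Finset.mem_insert, Finset.mem_singleton]
      rcases h2 with h2 | h2
      · left
        exact Finset.eq_of_subset_of_card_le hJ.1 (by omega)
      · right
        rw [← Finset.card_eq_zero]
        omega
    have h2 := (Finset.card_le_card hsub).trans (Finset.card_insert_le _ _)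
    simp only [Finset.card_singleton] at h2
    have h3 : ((A.powerset.filter (fun J => ¬ ((J.card : ℝ) ≤ m ∧ ((A \ J).card : ℝ) ≤ m))).card : ℝ) ≤ 2 := by
      exact_mod_cast h2
    have h4 : (4:ℝ) ≤ 2 ^ A.card := by
      rw [hc]
      calc (4:ℝ) = 2 ^ 2 := by norm_num
        _ ≤ 2 ^ (m + 1) := pow_le_pow_right₀ (by norm_num) (by omega)
    linarith
  · have hsub : A.powerset.filter (fun J => ¬ ((J.card : ℝ) ≤ m ∧ ((A \ J).card : ℝ) ≤ m)) = ∅ := by
      rw [Finset.filter_eq_empty_iff]
      intro J hJ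
      rw [Finset.mem_powerset] at hJ
      have h1 := Finset.card_sdiff_add_card_eq_card hJ
      push Not
      constructor
      · exact_mod_cast (by omega : J.card ≤ m)
      · exact_mod_cast (by omega : (A \ J).card ≤ m)
    rw [hsub]
    simp

end Pool.Agent.Lib.MP_bcb457_an
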