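import Mathlib
import Pool.Agent.Lib.MP_bcb457_an.Count
import Pool.Agent.Lib.MP_bcb457_an.Base

set_option autoImplicit false

namespace Pool.Agent.Lib.MP_bcb457_an

open Real Finset

variable {ι : Type*} [DecidableEq ι]

lemma Bd.mono_B {D : ℕ} {M κ B B' : ℝ} (hκ : 0 ≤ κ) (hB : 0 ≤ B) (hBB : B ≤ B')
    (h : Bd ι D M κ B) : Bd ι D M κ B' := by
  intro V a h1 h2
  refine (h V a h1 h2).trans ?_
  apply rpow_le_rpow hB hBB
  apply div_nonneg <;> linarith

/-- Small levels. -/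
theorem bd_small (m : ℕ) : ∃ κ : ℝ, 0 < κ ∧ κ ≤ 1 / 8 ∧ ∃ C : ℝ, 0 < C ∧
    ∀ n D : ℕ, 1 ≤ D → Bd (Fin n) D ((m:ℝ) + 1) κ (C * ((D:ℝ) + 1) ^ 2) := by
  induction m with
  | zero =>
    refine ⟨1 / 8, by norm_num, le_refl _, 2, by norm_num, fun n D hD => ?_⟩
    have h := bd_one (ι := Fin n) hD (κ := 1 / 8) (by norm_num) (by norm_num)
    simp only [Nat.cast_zero, zero_add]
    refine h.mono_B (by norm_num) (by positivity) ?_
    have : (0:ℝ) ≤ D := by positivity
    nlinarith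
  | succ m ih =>
    obtain ⟨κ, hκ0, hκ, C, hC, h⟩ := ih
    set R : ℝ := ((1 + 4 * (κ / 2)) / (1 - 4 * (κ / 2))) ^ (((m:ℝ) + 1) / 2) with hR
    have hR0 : 0 < R := by
      rw [hR]
      apply rpow_pos_of_pos
      apply div_pos <;> linarith
    refine ⟨κ / 2, by positivity, by linarith, 2 * (R * C), by positivity, fun n D hD => ?_⟩
    have h1 := h n D hD
    have hcnt := cnt_small (ι := Fin n) (m + 1) (by omega)
    have h2 := halving (ι := Fin n) (D := D) (M := ((m + 1 : ℕ) : ℝ) + 1) (M' := (m:ℝ) + 1) (κ := κ / 2)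
      (B := C * ((D:ℝ) + 1) ^ 2) (by positivity) (by linarith) (by positivity)
      (by have := hcnt; push_cast at this ⊢; exact this)
      (by rw [mul_div_cancel₀ κ (two_ne_zero)]; exact h1)
    rw [← hR] at h2
    have e : 2 * (R * (C * ((D:ℝ) + 1) ^ 2)) = 2 * (R * C) * ((D:ℝ) + 1) ^ 2 := by ring
    rw [e] at h2
    exact h2

lemma ratio_le {x : ℝ} (hx0 : 0 ≤ x) (hx : x ≤ 1 / 2) : (1 + x) / (1 - x) ≤ Real.exp (3 * x) := by
  rw [div_le_iff₀ (by linarith)]
  have h1 := Real.add_one_le_exp x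
  have h2 := Real.add_one_le_exp (2 * x)
  have e : Real.exp (3 * x) = Real.exp x * Real.exp (2 * x) := by
    rw [← Real.exp_add]; congr 1; ring
  rw [e]
  have h3 : 1 ≤ Real.exp (2 * x) * (1 - x) := by nlinarith
  have h4 : 0 < Real.exp x := Real.exp_pos x
  nlinarith

/-- All levels along a geometric sequence. -/
theorem bd_big : ∃ κ : ℝ, 0 < κ ∧ κ ≤ 1 / 8 ∧ ∃ C : ℝ, 0 < C ∧
    ∀ i n D : ℕ, 1 ≤ D → Bd (Fin n) D ((2:ℝ) ^ i + 24 * (3 / 2) ^ i) (κ / 2 ^ i)
      (C * ((D:ℝ) + 1) ^ 2 * (2 * Real.exp 10) ^ i) := by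
  obtain ⟨κ, hκ0, hκ, C, hC, h⟩ := bd_small 24
  refine ⟨κ, hκ0, hκ, C, hC, ?_⟩
  intro i
  induction i with
  | zero =>
    intro n D hD
    have := h n D hD
    norm_num at this ⊢
    exact this
  | succ i ih =>
    intro n D hD
    have h1 := ih n D hD
    set x : ℝ := 2 ^ i with hx
    set y : ℝ := (3 / 2) ^ i with hy
    have hx1 : 1 ≤ x := one_le_pow₀ (by norm_num)
    have hy1 : 1 ≤ y := one_le_pow₀ (by norm_num)
    have hxy : y ≤ x := pow_le_pow_left₀ (by norm_num) (by norm_num) i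
    have hyx : x ≤ y ^ 2 := by
      rw [hx, hy, ← pow_mul, mul_comm i 2, pow_mul]
      exact pow_le_pow_left₀ (by norm_num) (by norm_num) i
    have eM : (2:ℝ) ^ (i + 1) + 24 * (3 / 2) ^ (i + 1) = 2 * x + 36 * y := by
      rw [pow_succ, pow_succ]; ring
    have hcnt := cnt_big (ι := Fin n) (M := 2 * x + 36 * y) (M' := x + 24 * y) (by positivity)
      (by linarith) (by nlinarith)
    have eκ : κ / 2 ^ (i + 1) = κ / x / 2 := by
      rw [pow_succ, hx]; field_simp
    have hκx : κ / x ≤ κ := div_le_self hκ0.le hx1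
    have hκx0 : 0 < κ / x := by positivity
    have h2 := halving (ι := Fin n) (D := D) (M := 2 * x + 36 * y) (M' := x + 24 * y) (κ := κ / x / 2)
      (B := C * ((D:ℝ) + 1) ^ 2 * (2 * Real.exp 10) ^ i) (by positivity) (by linarith)
      (by positivity) hcnt (by rw [mul_div_cancel₀ _ (two_ne_zero)]; exact h1)
    rw [eM, eκ]
    refine h2.mono_B (by positivity) ?_ ?_
    · apply mul_nonneg (by norm_num)
      apply mul_nonneg _ (by positivity)
      apply rpow_nonneg
      apply div_nonneg <;> linarith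
    · have h3 : ((1 + 4 * (κ / x / 2)) / (1 - 4 * (κ / x / 2))) ^ ((x + 24 * y) / 2) ≤ Real.exp 10 := by
        have h4 := ratio_le (x := 4 * (κ / x / 2)) (by positivity) (by linarith)
        have h5 : (0:ℝ) ≤ (1 + 4 * (κ / x / 2)) / (1 - 4 * (κ / x / 2)) := by
          apply div_nonneg <;> linarith
        refine (rpow_le_rpow h5 h4 (by positivity)).trans ?_
        rw [← Real.exp_mul]
        apply Real.exp_le_exp.mpr
        have h6 : 3 * (4 * (κ / x / 2)) * ((x + 24 * y) / 2) ≤ 3 * (4 * (κ / x / 2)) * ((25 * x) / 2) := by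
          apply mul_le_mul_of_nonneg_left _ (by positivity)
          linarith
        refine h6.trans ?_
        have h7 : 3 * (4 * (κ / x / 2)) * ((25 * x) / 2) = 75 * κ := by
          field_simp; ring
        rw [h7]
        linarith
      calc 2 * (((1 + 4 * (κ / x / 2)) / (1 - 4 * (κ / x / 2))) ^ ((x + 24 * y) / 2) *
            (C * ((D:ℝ) + 1) ^ 2 * (2 * Real.exp 10) ^ i))
          ≤ 2 * (Real.exp 10 * (C * ((D:ℝ) + 1) ^ 2 * (2 * Real.exp 10) ^ i)) := by
            apply mul_le_mul_of_nonneg_left _ (by norm_num)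
            exact mul_le_mul_of_nonneg_right h3 (by positivity)
        _ = _ := by rw [pow_succ]; ring

end Pool.Agent.Lib.MP_bcb457_an
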