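import Mathlib
import Pool.Agent.Lib.MP_bcb457_an.Rec

set_option autoImplicit false

namespace Pool.Agent.Lib.MP_bcb457_an

open Real Finset

lemma choose_ge (d : ℕ) : ∀ n : ℕ, d ≤ n → ((n:ℝ) / d) ^ d ≤ (n.choose d : ℝ) := by
  induction d with
  | zero => intro n _; simp
  | succ d ih =>
    intro n hn
    obtain ⟨n, rfl⟩ : ∃ m, n = m + 1 := ⟨n - 1, by omega⟩
    have hdn : d ≤ n := by omega
    have h1 := ih n hdn
    have h2 : ((n + 1 : ℕ) : ℝ) * (n.choose d : ℝ) = ((n + 1).choose (d + 1) : ℝ) * ((d + 1 : ℕ) : ℝ) := by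
      exact_mod_cast Nat.add_one_mul_choose_eq n d
    have hd1 : (0:ℝ) < ((d + 1 : ℕ) : ℝ) := by positivity
    have h3 : ((n + 1).choose (d + 1) : ℝ) = ((n + 1 : ℕ) : ℝ) / ((d + 1 : ℕ) : ℝ) * (n.choose d : ℝ) := by
      field_simp
      linarith
    rw [h3, pow_succ, mul_comm]
    apply mul_le_mul_of_nonneg_left _ (by positivity)
    refine le_trans ?_ h1
    rcases Nat.eq_zero_or_pos d with h0 | h0
    · subst h0; simp
    · apply pow_le_pow_left₀ (by positivity)
      have hd0 : (0:ℝ) < d := by exact_mod_cast h0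
      rw [div_le_div_iff₀ hd1 hd0]
      have : (d:ℝ) ≤ n := by exact_mod_cast hdn
      push_cast
      nlinarith

/-- The complex polynomial with coefficients `c` at level `d`. -/
noncomputable def F {n : ℕ} (d : ℕ) (c : Finset (Fin n) → ℂ) (T : Finset (Fin n)) : ℂ :=
  ∑ S ∈ (Finset.univ : Finset (Finset (Fin n))).filter (fun S => S.card = d), c S * (chi S T : ℂ)

/-- Real coefficient function. -/
noncomputable def reC {n : ℕ} (d : ℕ) (c : Finset (Fin n) → ℂ) (S : Finset (Fin n)) : ℝ :=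
  if S.card = d then (c S).re else 0

lemma ev_reC {n : ℕ} (d : ℕ) (c : Finset (Fin n) → ℂ) (T : Finset (Fin n)) :
    ev (reC d c) Finset.univ T = (F d c T).re := by
  unfold ev reC F
  rw [Finset.powerset_univ, Complex.re_sum, Finset.sum_filter]
  apply Finset.sum_congr rfl
  intro S _
  split_ifs with h
  · rw [Complex.mul_re, Complex.ofReal_re, Complex.ofReal_im]; ring
  · simp

lemma F_im {n : ℕ} (d : ℕ) (c : Finset (Fin n) → ℂ) (T : Finset (Fin n)) :
    (F d (fun S => -Complex.I * c S) T).re = (F d c T).im := by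
  have : F d (fun S => -Complex.I * c S) T = -Complex.I * F d c T := by
    unfold F
    rw [Finset.mul_sum]
    apply Finset.sum_congr rfl
    intro S _
    ring
  rw [this]
  simp

lemma card_level (n d : ℕ) :
    ((Finset.univ : Finset (Finset (Fin n))).filter (fun S => S.card = d)).card = n.choose d := by
  rw [← Finset.powerset_univ, ← Finset.powersetCard_eq_filter, Finset.card_powersetCard]
  simp

/-- Parseval lower bound for real coefficients. -/
lemma parseval_re {n d : ℕ} (c : Finset (Fin n) → ℂ) :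
    ∑ S ∈ (Finset.univ : Finset (Finset (Fin n))).filter (fun S => S.card = d), (c S).re ^ 2 ≤
      (∑ T : Finset (Fin n), (F d c T).re ^ 2) / 2 ^ n := by
  have h := hyper (ι := Fin n) (p := 2) (by norm_num) (le_refl _) Finset.univ (reC d c)
  rw [show (2:ℝ) / 2 = 1 by norm_num, rpow_one, Finset.powerset_univ, Finset.card_univ,
    Fintype.card_fin] at h
  have e1 : ∑ A : Finset (Fin n), ((2:ℝ) - 1) ^ A.card * (reC d c A) ^ 2 =
      ∑ S ∈ (Finset.univ : Finset (Finset (Fin n))).filter (fun S => S.card = d), (c S).re ^ 2 := by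
    rw [Finset.sum_filter]
    apply Finset.sum_congr rfl
    intro A _
    unfold reC
    split_ifs <;> norm_num
  have e2 : ∀ T : Finset (Fin n), |ev (reC d c) Finset.univ T| ^ (2:ℝ) = (F d c T).re ^ 2 := by
    intro T
    rw [ev_reC, rpow_two, sq_abs]
  simp only [e2] at h
  rw [e1] at h
  exact h

lemma sqrt_choose_le {n d : ℕ} (c : Finset (Fin n) → ℂ)
    (hc : ∀ S : Finset (Fin n), S.card = d → ‖c S‖ = 1) {X : ℝ} (hX : 0 ≤ X)
    (h : ∀ T, ‖F d c T‖ ≤ X) : Real.sqrt (n.choose d : ℝ) ≤ X := by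
  have h1 := parseval_re (d := d) c
  have h2 := parseval_re (d := d) (fun S => -Complex.I * c S)
  simp only [F_im] at h2
  have h3 : ∑ S ∈ (Finset.univ : Finset (Finset (Fin n))).filter (fun S => S.card = d),
      ((-Complex.I * c S).re) ^ 2 = ∑ S ∈ (Finset.univ : Finset (Finset (Fin n))).filter
      (fun S => S.card = d), (c S).im ^ 2 := by
    apply Finset.sum_congr rfl
    intro S _
    simp
  rw [h3] at h2
  have h4 : ∑ S ∈ (Finset.univ : Finset (Finset (Fin n))).filter (fun S => S.card = d),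
      ((c S).re ^ 2 + (c S).im ^ 2) = (n.choose d : ℝ) := by
    have : ∀ S ∈ (Finset.univ : Finset (Finset (Fin n))).filter (fun S => S.card = d),
        (c S).re ^ 2 + (c S).im ^ 2 = 1 := by
      intro S hS
      have h5 := hc S (Finset.mem_filter.mp hS).2
      have h6 := Complex.sq_norm (c S)
      rw [h5, Complex.normSq_apply] at h6
      nlinarith
    rw [Finset.sum_congr rfl this, Finset.sum_const, card_level]
    simp
  rw [Finset.sum_add_distrib] at h4
  have h5 : (n.choose d : ℝ) ≤ X ^ 2 := by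
    rw [← h4]
    have h6 : (∑ T : Finset (Fin n), (F d c T).re ^ 2) / 2 ^ n +
        (∑ T : Finset (Fin n), (F d c T).im ^ 2) / 2 ^ n ≤ X ^ 2 := by
      rw [← add_div, ← Finset.sum_add_distrib, div_le_iff₀ (by positivity)]
      have h7 : ∀ T ∈ (Finset.univ : Finset (Finset (Fin n))),
          (F d c T).re ^ 2 + (F d c T).im ^ 2 ≤ X ^ 2 := by
        intro T _
        have h8 := Complex.sq_norm (F d c T)
        rw [Complex.normSq_apply] at h8
        have h9 : ‖F d c T‖ ^ 2 ≤ X ^ 2 := pow_le_pow_left₀ (norm_nonneg _) (h T) 2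
        nlinarith
      refine (Finset.sum_le_sum h7).trans ?_
      rw [Finset.sum_const, Finset.card_univ, Fintype.card_finset, Fintype.card_fin, nsmul_eq_mul]
      push_cast
      linarith
    linarith
  calc Real.sqrt (n.choose d : ℝ) ≤ Real.sqrt (X ^ 2) := Real.sqrt_le_sqrt h5
    _ = X := Real.sqrt_sq hX

/-- Applying the bound predicate to the real part. -/
lemma bd_re {n d : ℕ} {M κ B : ℝ} (hb : Bd (Fin n) d M κ B) (hM : (d:ℝ) ≤ M)
    (c : Finset (Fin n) → ℂ) {X : ℝ} (hX : 0 < X) (hB : 0 ≤ B) (hκ : 0 ≤ κ)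
    (h : ∀ T, ‖F d c T‖ ≤ X) :
    ∑ S ∈ (Finset.univ : Finset (Finset (Fin n))).filter (fun S => S.card = d),
      |(c S).re| ^ (2 / (1 + 2 * κ)) ≤ (X * B) ^ (2 / (1 + 2 * κ)) := by
  set p : ℝ := 2 / (1 + 2 * κ) with hp
  have hp0 : 0 < p := by rw [hp]; positivity
  have h1 := hb Finset.univ (fun A => reC d c A / X) ?_ ?_
  · rw [Finset.powerset_univ, ← hp] at h1
    have h2 : ∑ S ∈ (Finset.univ : Finset (Finset (Fin n))).filter (fun S => S.card = d),
        |(c S).re / X| ^ p ≤ B ^ p := by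
      refine le_trans ?_ h1
      have e : ∑ S ∈ (Finset.univ : Finset (Finset (Fin n))).filter (fun S => S.card = d),
          |(c S).re / X| ^ p = ∑ S ∈ (Finset.univ : Finset (Finset (Fin n))).filter
          (fun S => S.card = d), |reC d c S / X| ^ p := by
        apply Finset.sum_congr rfl
        intro S hS
        rw [reC, if_pos (Finset.mem_filter.mp hS).2]
      rw [e]
      apply Finset.sum_le_sum_of_subset_of_nonneg
      · intro S hS
        rw [Finset.mem_filter] at hS ⊢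
        exact ⟨hS.1, by rw [hS.2]; exact hM⟩
      · intro S _ _
        positivity
    have e2 : ∑ S ∈ (Finset.univ : Finset (Finset (Fin n))).filter (fun S => S.card = d),
        |(c S).re| ^ p = X ^ p * ∑ S ∈ (Finset.univ : Finset (Finset (Fin n))).filter
        (fun S => S.card = d), |(c S).re / X| ^ p := by
      rw [Finset.mul_sum]
      apply Finset.sum_congr rfl
      intro S _
      rw [← mul_rpow hX.le (abs_nonneg _), abs_div, abs_of_pos hX, mul_div_cancel₀ _ hX.ne']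
    rw [e2, mul_rpow hX.le hB]
    exact mul_le_mul_of_nonneg_left h2 (by positivity)
  · intro A hA
    show reC d c A / X = 0
    rw [reC, if_neg (by omega), zero_div]
  · intro T _
    have e : ev (fun A => reC d c A / X) Finset.univ T = (F d c T).re / X := by
      rw [← ev_reC]
      unfold ev
      rw [Finset.sum_div]
      apply Finset.sum_congr rfl
      intro A _
      ring
    rw [e, abs_div, abs_of_pos hX, div_le_one hX]
    exact (Complex.abs_re_le_norm _).trans (h T)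

lemma pow_bound {n d : ℕ} {M κ B : ℝ} (hb : Bd (Fin n) d M κ B) (hM : (d:ℝ) ≤ M)
    (c : Finset (Fin n) → ℂ) (hc : ∀ S : Finset (Fin n), S.card = d → ‖c S‖ = 1)
    {X : ℝ} (hX : 0 < X) (hB : 0 ≤ B) (hκ : 0 ≤ κ) (hκ2 : κ ≤ 1 / 2)
    (h : ∀ T, ‖F d c T‖ ≤ X) :
    (n.choose d : ℝ) ^ (1 / 2 + κ) ≤ 2 * (X * B) := by
  have h1 := bd_re hb hM c hX hB hκ h
  have h2 := bd_re hb hM (fun S => -Complex.I * c S) hX hB hκ (by
    intro T
    have : F d (fun S => -Complex.I * c S) T = -Complex.I * F d c T := by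
      unfold F
      rw [Finset.mul_sum]
      apply Finset.sum_congr rfl
      intro S _
      ring
    rw [this, norm_mul, norm_neg, Complex.norm_I, one_mul]
    exact h T)
  set p : ℝ := 2 / (1 + 2 * κ) with hp
  have hp1 : 1 ≤ p := by rw [hp, le_div_iff₀ (by linarith)]; linarith
  have hp2 : p ≤ 2 := by rw [hp, div_le_iff₀ (by linarith)]; linarith
  have h3 : (n.choose d : ℝ) ≤ ∑ S ∈ (Finset.univ : Finset (Finset (Fin n))).filter
      (fun S => S.card = d), (|(c S).re| ^ p + |(-Complex.I * c S).re| ^ p) := by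
    have : ∀ S ∈ (Finset.univ : Finset (Finset (Fin n))).filter (fun S => S.card = d),
        (1:ℝ) ≤ |(c S).re| ^ p + |(-Complex.I * c S).re| ^ p := by
      intro S hS
      have h5 := hc S (Finset.mem_filter.mp hS).2
      have h6 := Complex.sq_norm (c S)
      rw [h5, Complex.normSq_apply] at h6
      have e : (-Complex.I * c S).re = (c S).im := by simp
      rw [e]
      have h7 : |(c S).re| ^ (2:ℝ) ≤ |(c S).re| ^ p := by
        apply rpow_le_rpow_of_exponent_ge_of_imp (abs_nonneg _) _ hp2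
        · intro h8 _; linarith
        · rw [← h5]; exact Complex.abs_re_le_norm _
      have h8 : |(c S).im| ^ (2:ℝ) ≤ |(c S).im| ^ p := by
        apply rpow_le_rpow_of_exponent_ge_of_imp (abs_nonneg _) _ hp2
        · intro h8 _; linarith
        · rw [← h5]; exact Complex.abs_im_le_norm _
      rw [rpow_two, sq_abs] at h7 h8
      nlinarith
    have h4 := Finset.sum_le_sum this
    rw [Finset.sum_const, card_level] at h4
    simpa using h4
  rw [Finset.sum_add_distrib] at h3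
  have hXB : 0 ≤ X * B := mul_nonneg hX.le hB
  have h4 : (n.choose d : ℝ) ≤ (2 * (X * B)) ^ p := by
    have h5 : (2:ℝ) * (X * B) ^ p ≤ (2 * (X * B)) ^ p := by
      rw [mul_rpow (by norm_num) hXB]
      apply mul_le_mul_of_nonneg_right _ (by positivity)
      calc (2:ℝ) = 2 ^ (1:ℝ) := by rw [rpow_one]
        _ ≤ 2 ^ p := rpow_le_rpow_of_exponent_le (by norm_num) hp1
    linarith
  have h5 := rpow_le_rpow (by positivity) h4 (by positivity : 0 ≤ 1 / 2 + κ)
  rw [← rpow_mul (by positivity)] at h5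
  have e : p * (1 / 2 + κ) = 1 := by
    rw [hp]; field_simp
  rwa [e, rpow_one] at h5

/-- The key lower bound. -/
theorem key : ∃ κ : ℝ, 0 < κ ∧ ∃ E : ℝ, 1 ≤ E ∧ ∃ C : ℝ, 0 < C ∧ ∀ n d : ℕ, 1 ≤ d → d ≤ n →
    ∀ c : Finset (Fin n) → ℂ, (∀ S : Finset (Fin n), S.card = d → ‖c S‖ = 1) →
    ∃ T : Finset (Fin n), Real.sqrt (n.choose d : ℝ) ≤ ‖F d c T‖ ∧
      Real.sqrt (n.choose d : ℝ) * (n:ℝ) ^ κ ≤ C * (d:ℝ) ^ E * ‖F d c T‖ := by
  obtain ⟨κ, hκ0, hκ, C, hC, hbd⟩ := bd_big
  set γ : ℝ := Real.logb 2 (2 * Real.exp 10) with hγ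
  have hexp : 1 ≤ Real.exp 10 := Real.one_le_exp (by norm_num)
  have hγ0 : 0 ≤ γ := Real.logb_nonneg (by norm_num) (by linarith)
  have h2γ : (2:ℝ) ^ γ = 2 * Real.exp 10 := Real.rpow_logb (by norm_num) (by norm_num) (by positivity)
  refine ⟨κ / 2, by positivity, 2 + γ + κ / 2, by linarith, 2 * (C * 2 ^ (2 + γ)), by positivity, ?_⟩
  intro n d hd hdn c hc
  obtain ⟨T, _, hT⟩ := Finset.exists_max_image (Finset.univ : Finset (Finset (Fin n)))
    (fun T => ‖F d c T‖) ⟨∅, Finset.mem_univ _⟩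
  refine ⟨T, ?_⟩
  set X := ‖F d c T‖ with hXdef
  have hX : ∀ T', ‖F d c T'‖ ≤ X := fun T' => hT T' (Finset.mem_univ _)
  have hX0 : 0 ≤ X := norm_nonneg _
  have h1 := sqrt_choose_le c hc hX0 hX
  refine ⟨h1, ?_⟩
  have hN : (0:ℝ) < (n.choose d : ℝ) := by exact_mod_cast Nat.choose_pos hdn
  have hsN : 0 < Real.sqrt (n.choose d : ℝ) := Real.sqrt_pos.mpr hN
  have hXpos : 0 < X := lt_of_lt_of_le hsN h1
  have hd1 : (1:ℝ) ≤ d := by exact_mod_cast hd
  have hdn' : (d:ℝ) ≤ n := by exact_mod_cast hdn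
  obtain ⟨i, hi1, hi2⟩ := exists_nat_pow_near hd1 (by norm_num : (1:ℝ) < 2)
  have hb := hbd (i + 1) n d hd
  have hi3 : (2:ℝ) ^ (i + 1) ≤ 2 * d := by rw [pow_succ]; linarith
  have hM : (d:ℝ) ≤ 2 ^ (i + 1) + 24 * (3 / 2) ^ (i + 1) := by
    have : (0:ℝ) ≤ 24 * (3 / 2) ^ (i + 1) := by positivity
    linarith
  have hpos : (0:ℝ) < 2 ^ (i + 1) := by positivity
  have h2 := pow_bound hb hM c hc hXpos (by positivity) (by positivity)
    (by
      have : κ / 2 ^ (i + 1) ≤ κ := div_le_self hκ0.le (one_le_pow₀ (by norm_num))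
      linarith) hX
  -- bound for B
  have hB : C * ((d:ℝ) + 1) ^ 2 * (2 * Real.exp 10) ^ (i + 1) ≤ C * 2 ^ (2 + γ) * (d:ℝ) ^ (2 + γ) := by
    have e1 : (2 * Real.exp 10) ^ (i + 1) = ((2:ℝ) ^ (i + 1)) ^ γ := by
      rw [← h2γ, ← rpow_natCast, ← rpow_natCast, ← rpow_mul (by norm_num), ← rpow_mul (by norm_num)]
      congr 1
      ring
    rw [e1]
    have e2 : ((2:ℝ) ^ (i + 1)) ^ γ ≤ (2 * d) ^ γ := rpow_le_rpow (by positivity) hi3 hγ0
    have e3 : ((d:ℝ) + 1) ^ 2 ≤ (2 * d) ^ (2:ℝ) := by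
      rw [rpow_two]
      apply pow_le_pow_left₀ (by positivity)
      linarith
    calc C * ((d:ℝ) + 1) ^ 2 * ((2:ℝ) ^ (i + 1)) ^ γ ≤ C * (2 * d) ^ (2:ℝ) * (2 * d) ^ γ := by
          apply mul_le_mul _ e2 (by positivity) (by positivity)
          exact mul_le_mul_of_nonneg_left e3 hC.le
      _ = C * (2 * d) ^ (2 + γ) := by
          rw [mul_assoc, ← rpow_add (by positivity)]
      _ = _ := by
          rw [mul_rpow (by norm_num) (by positivity)]
          ring
  -- lower bound for the power of N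
  have hNκ : ((n:ℝ) / d) ^ (κ / 2) ≤ (n.choose d : ℝ) ^ (κ / 2 ^ (i + 1)) := by
    have h3 := choose_ge d n hdn
    have hnd : (1:ℝ) ≤ (n:ℝ) / d := by rw [le_div_iff₀ (by linarith)]; linarith
    calc ((n:ℝ) / d) ^ (κ / 2) ≤ ((n:ℝ) / d) ^ (d * (κ / 2 ^ (i + 1))) := by
          apply rpow_le_rpow_of_exponent_le hnd
          have : κ / 2 = d * (κ / (2 * d)) := by field_simp
          rw [this]
          apply mul_le_mul_of_nonneg_left _ (by positivity)
          exact div_le_div_of_nonneg_left hκ0.le hpos hi3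
      _ = (((n:ℝ) / d) ^ d) ^ (κ / 2 ^ (i + 1)) := by
          rw [rpow_mul (by positivity), rpow_natCast]
      _ ≤ _ := rpow_le_rpow (by positivity) h3 (by positivity)
  have hsplit : (n.choose d : ℝ) ^ (1 / 2 + κ / 2 ^ (i + 1)) =
      Real.sqrt (n.choose d : ℝ) * (n.choose d : ℝ) ^ (κ / 2 ^ (i + 1)) := by
    rw [rpow_add hN, Real.sqrt_eq_rpow]
  rw [hsplit] at h2
  have hn0 : (0:ℝ) ≤ n := by positivity
  have hd0 : (0:ℝ) < d := by linarith
  have e4 : (n:ℝ) ^ (κ / 2) = ((n:ℝ) / d) ^ (κ / 2) * (d:ℝ) ^ (κ / 2) := by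
    rw [← mul_rpow (by positivity) hd0.le]
    congr 1
    field_simp
  rw [e4]
  calc Real.sqrt (n.choose d : ℝ) * (((n:ℝ) / d) ^ (κ / 2) * (d:ℝ) ^ (κ / 2))
      ≤ Real.sqrt (n.choose d : ℝ) * ((n.choose d : ℝ) ^ (κ / 2 ^ (i + 1)) * (d:ℝ) ^ (κ / 2)) := by
        apply mul_le_mul_of_nonneg_left _ hsN.le
        exact mul_le_mul_of_nonneg_right hNκ (by positivity)
    _ = (Real.sqrt (n.choose d : ℝ) * (n.choose d : ℝ) ^ (κ / 2 ^ (i + 1))) * (d:ℝ) ^ (κ / 2) := by ring
    _ ≤ (2 * (X * (C * ((d:ℝ) + 1) ^ 2 * (2 * Real.exp 10) ^ (i + 1)))) * (d:ℝ) ^ (κ / 2) :=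
        mul_le_mul_of_nonneg_right h2 (by positivity)
    _ ≤ (2 * (X * (C * 2 ^ (2 + γ) * (d:ℝ) ^ (2 + γ)))) * (d:ℝ) ^ (κ / 2) := by
        apply mul_le_mul_of_nonneg_right _ (by positivity)
        apply mul_le_mul_of_nonneg_left _ (by norm_num)
        exact mul_le_mul_of_nonneg_left hB hXpos.le
    _ = 2 * (C * 2 ^ (2 + γ)) * ((d:ℝ) ^ (2 + γ) * (d:ℝ) ^ (κ / 2)) * X := by ring
    _ = _ := by rw [← rpow_add hd0]

/-- Final form with the exponents of the Aaronson–Ambainis inequality. -/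
theorem final : ∃ K : ℝ, 1 < K ∧ ∃ C : ℝ, 0 < C ∧ ∀ n d : ℕ, 1 ≤ d → d ≤ n →
    ∀ c : Finset (Fin n) → ℂ, (∀ S : Finset (Fin n), S.card = d → ‖c S‖ = 1) →
    ∃ T : Finset (Fin n), Real.sqrt (n.choose d : ℝ) ≤
      C * (d : ℝ) ^ ((K + 1) / (2 * K - 2)) * (n : ℝ) ^ (-1 / (2 * K - 2)) * ‖F d c T‖ := by
  obtain ⟨κ, hκ, E, hE, C, hC, h⟩ := key
  set s : ℝ := 1 / (2 * E) with hs
  have hE0 : 0 < E := by linarith
  have hs0 : 0 < s := by positivity
  have hs1 : s ≤ 1 := by rw [hs, div_le_one (by positivity)]; linarith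
  set α : ℝ := s * κ with hα
  have hα0 : 0 < α := by positivity
  refine ⟨1 + 1 / (2 * α), by linarith [(by positivity : 0 < 1 / (2 * α))], C ^ s, by positivity, ?_⟩
  intro n d hd hdn c hc
  obtain ⟨T, h1, h2⟩ := h n d hd hdn c hc
  refine ⟨T, ?_⟩
  have e1 : (1 + 1 / (2 * α) + 1) / (2 * (1 + 1 / (2 * α)) - 2) = 1 / 2 + 2 * α := by
    have : 2 * (1 + 1 / (2 * α)) - 2 = 1 / α := by field_simp; ring
    rw [this]
    field_simp
    ring
  have e2 : -1 / (2 * (1 + 1 / (2 * α)) - 2) = -α := by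
    have : 2 * (1 + 1 / (2 * α)) - 2 = 1 / α := by field_simp; ring
    rw [this]
    field_simp
  rw [e1, e2]
  set X := ‖F d c T‖ with hX
  have hN : (0:ℝ) < (n.choose d : ℝ) := by exact_mod_cast Nat.choose_pos hdn
  set Y := Real.sqrt (n.choose d : ℝ) with hY
  have hY0 : 0 < Y := Real.sqrt_pos.mpr hN
  have hX0 : 0 < X := lt_of_lt_of_le hY0 h1
  have hd1 : (1:ℝ) ≤ d := by exact_mod_cast hd
  have hn1 : (1:ℝ) ≤ n := by exact_mod_cast (hd.trans hdn)
  have hn0 : (0:ℝ) < n := by linarith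
  have hd0 : (0:ℝ) < d := by linarith
  have h3 : Y * (n:ℝ) ^ α ≤ C ^ s * (d:ℝ) ^ (1 / 2 : ℝ) * X := by
    calc Y * (n:ℝ) ^ α = Y ^ (1 - s) * (Y * (n:ℝ) ^ κ) ^ s := by
          rw [mul_rpow hY0.le (by positivity), ← rpow_mul hn0.le, ← mul_assoc, ← rpow_add hY0,
            mul_comm κ s]
          simp [hα]
      _ ≤ X ^ (1 - s) * (C * (d:ℝ) ^ E * X) ^ s := by
          apply mul_le_mul
          · exact rpow_le_rpow hY0.le h1 (by linarith)
          · exact rpow_le_rpow (by positivity) h2 hs0.le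
          · positivity
          · positivity
      _ = C ^ s * (d:ℝ) ^ (1 / 2 : ℝ) * X := by
          rw [mul_rpow (by positivity) hX0.le, mul_rpow hC.le (by positivity), ← rpow_mul hd0.le]
          have e3 : E * s = 1 / 2 := by rw [hs]; field_simp
          rw [e3]
          have e4 : X ^ (1 - s) * X ^ s = X := by
            rw [← rpow_add hX0]; simp
          calc X ^ (1 - s) * (C ^ s * (d:ℝ) ^ (1 / 2 : ℝ) * X ^ s)
              = C ^ s * (d:ℝ) ^ (1 / 2 : ℝ) * (X ^ (1 - s) * X ^ s) := by ring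
            _ = _ := by rw [e4]
  have h4 : Y ≤ C ^ s * (d:ℝ) ^ (1 / 2 : ℝ) * (n:ℝ) ^ (-α) * X := by
    have h5 : 0 < (n:ℝ) ^ (-α) := by positivity
    have h6 := mul_le_mul_of_nonneg_right h3 h5.le
    rw [mul_assoc, ← rpow_add hn0, add_neg_cancel, rpow_zero, mul_one] at h6
    linarith
  refine h4.trans ?_
  apply mul_le_mul_of_nonneg_right _ hX0.le
  apply mul_le_mul_of_nonneg_right _ (by positivity)
  apply mul_le_mul_of_nonneg_left _ (by positivity)
  exact rpow_le_rpow_of_exponent_le hd1 (by linarith)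

end Pool.Agent.Lib.MP_bcb457_an
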